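import Mathlib

/-! Models of ZF, and the notions of the problem read inside such a model `(M, E)`. -/

namespace Pool.Agent.P.MP_92320c_lc

universe u

/-- First-order formulas of the language of set theory, with de Bruijn variables. -/
inductive Fml : Type
  | mem : ℕ → ℕ → Fml
  | eq : ℕ → ℕ → Fml
  | bot : Fml
  | imp : Fml → Fml → Fml
  | all : Fml → Fml

variable {M : Type u} (E : M → M → Prop)

/-- The assignment `x, v 0, v 1, …`. -/
def cons (x : M) (v : ℕ → M) (n : ℕ) : M := Nat.rec x (fun k _ => v k) n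

/-- Tarski satisfaction in the structure `(M, E)` under an assignment of the variables. -/
def Sat (φ : Fml) : (ℕ → M) → Prop :=
  Fml.rec (motive := fun _ => (ℕ → M) → Prop)
    (fun i j v => E (v i) (v j)) (fun i j v => v i = v j) (fun _ => False)
    (fun _ _ p q v => p v → q v) (fun _ p v => ∀ x, p (cons x v)) φ

/-- `s = n ∪ {n}`. -/
def IsSucc (n s : M) : Prop := ∀ y, E y s ↔ E y n ∨ y = n

/-- `w` contains the empty set and is closed under `x ↦ x ∪ {x}`. -/
def IsInductive (w : M) : Prop :=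
  (∃ e, E e w ∧ ∀ x, ¬ E x e) ∧ ∀ x, E x w → ∃ s, E s w ∧ IsSucc E x s

/-- `(M, E)` is a model of ZF: extensionality, foundation, pairing, union, power set, infinity,
and the separation and replacement schemes (all formulas, all parameters). -/
def IsZF : Prop :=
  (∀ a b, (∀ x, E x a ↔ E x b) → a = b) ∧
  (∀ a, (∃ x, E x a) → ∃ x, E x a ∧ ∀ y, E y x → ¬ E y a) ∧
  (∀ a b, ∃ c, ∀ x, E x c ↔ x = a ∨ x = b) ∧
  (∀ a, ∃ c, ∀ x, E x c ↔ ∃ y, E y a ∧ E x y) ∧
  (∀ a, ∃ c, ∀ x, E x c ↔ ∀ y, E y x → E y a) ∧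
  (∃ w, IsInductive E w) ∧
  (∀ (φ : Fml) (v : ℕ → M) (a : M), ∃ b, ∀ x, E x b ↔ E x a ∧ Sat E φ (cons x v)) ∧
  ∀ (φ : Fml) (v : ℕ → M) (a : M), (∀ x, E x a → ∃! y, Sat E φ (cons y (cons x v))) →
    ∃ b, ∀ y, E y b ↔ ∃ x, E x a ∧ Sat E φ (cons y (cons x v))

/-- `w` is `ω`, the least inductive set. -/
def IsOmega (w : M) : Prop := IsInductive E w ∧ ∀ w', IsInductive E w' → ∀ x, E x w → E x w'

/-- `p` is the Kuratowski pair `{{a}, {a, b}}`. -/
def IsOPair (p a b : M) : Prop :=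
  ∀ x, E x p ↔ (∀ y, E y x ↔ y = a) ∨ (∀ y, E y x ↔ y = a ∨ y = b)

/-- The pair `(a, b)` belongs to `f`. -/
def Rel (f a b : M) : Prop := ∃ p, E p f ∧ IsOPair E p a b

/-- `f` is a function from `A` to `B`. -/
def IsFun (f A B : M) : Prop :=
  (∀ p, E p f → ∃ a b, E a A ∧ E b B ∧ IsOPair E p a b) ∧ ∀ a, E a A → ∃! b, Rel E f a b

/-- `f` is injective. -/
def Injective (f : M) : Prop := ∀ a a' b, Rel E f a b → Rel E f a' b → a = a'

/-- Every element of `B` is a value of `f`. -/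
def Onto (f B : M) : Prop := ∀ b, E b B → ∃ a, Rel E f a b

/-- `A` is in bijection with an element of `ω`. -/
def IsFinite (A : M) : Prop :=
  ∃ w n f, IsOmega E w ∧ E n w ∧ IsFun E f A n ∧ Injective E f ∧ Onto E f n

/-- `A` is infinite and is not the union of two disjoint infinite sets. -/
def Amorphous (A : M) : Prop :=
  ¬ IsFinite E A ∧ ¬ ∃ B C, ¬ IsFinite E B ∧ ¬ IsFinite E C ∧ (∀ x, ¬ (E x B ∧ E x C)) ∧
    ∀ x, E x A ↔ E x B ∨ E x C

/-- Every surjection from `X` onto `X` is injective. -/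
def DuallyFinite (X : M) : Prop := ∀ f, IsFun E f X X → Onto E f X → Injective E f

/-- `Y = 𝒫(A)^n`, the set of all functions from `n` to the power set of `A`. -/
def IsPowPow (A n Y : M) : Prop :=
  ∃ P, (∀ S, E S P ↔ ∀ a, E a S → E a A) ∧ ∀ x, E x Y ↔ IsFun E x n P

end Pool.Agent.P.MP_92320c_lc
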