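import Mathlib
import Pool.Agent.P.MP_92320c_lc.Defs

/-! Definable predicates and terms, as classes found by instance search. -/

namespace Pool.Agent.P.MP_92320c_lc

universe u

variable {M : Type u} {E : M → M → Prop}

def Fml.ren : Fml → (ℕ → ℕ) → Fml
  | Fml.mem i j, ρ => Fml.mem (ρ i) (ρ j)
  | Fml.eq i j, ρ => Fml.eq (ρ i) (ρ j)
  | Fml.bot, _ => Fml.bot
  | Fml.imp φ ψ, ρ => Fml.imp (φ.ren ρ) (ψ.ren ρ)
  | Fml.all φ, ρ => Fml.all (φ.ren (cons 0 (fun n => ρ n + 1)))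

theorem sat_ren (φ : Fml) : ∀ (ρ : ℕ → ℕ) (v : ℕ → M),
    Sat E (φ.ren ρ) v ↔ Sat E φ (fun n => v (ρ n)) := by
  induction φ with
  | mem i j => exact fun _ _ => Iff.rfl
  | eq i j => exact fun _ _ => Iff.rfl
  | bot => exact fun _ _ => Iff.rfl
  | imp φ ψ h1 h2 => exact fun ρ v => imp_congr (h1 ρ v) (h2 ρ v)
  | all φ ih =>
    intro ρ v
    refine forall_congr' (fun x => (ih _ _).trans ?_)
    have : (fun n => cons x v (cons 0 (fun n => ρ n + 1) n)) = cons x (fun n => v (ρ n)) := by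
      funext n; cases n <;> rfl
    rw [this]; exact Iff.rfl

/-- Definable with parameters. -/
class Dfn (E : M → M → Prop) (P : (ℕ → M) → Prop) : Prop where
  out : ∃ (φ : Fml) (ρ : ℕ → ℕ ⊕ M), ∀ v, P v ↔ Sat E φ (fun n => Sum.elim v id (ρ n))

/-- Definable functions. -/
class Tm (E : M → M → Prop) (t : (ℕ → M) → M) : Prop where
  out : Dfn E (fun v => v 0 = t (fun n => v (n + 1)))

namespace Dfn

theorem congr {P Q : (ℕ → M) → Prop} (h : Dfn E P) (H : ∀ v, Q v ↔ P v) : Dfn E Q := by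
  obtain ⟨φ, ρ, h⟩ := h
  exact ⟨φ, ρ, fun v => (H v).trans (h v)⟩

theorem sub {P : (ℕ → M) → Prop} (h : Dfn E P) (σ : ℕ → ℕ ⊕ M) :
    Dfn E (fun v => P (fun n => Sum.elim v id (σ n))) := by
  obtain ⟨φ, ρ, h⟩ := h
  refine ⟨φ, fun n => Sum.elim σ Sum.inr (ρ n), fun v => (h _).trans ?_⟩
  have : (fun n => Sum.elim (fun n => Sum.elim v id (σ n)) id (ρ n)) =
      fun n => Sum.elim v id (Sum.elim σ Sum.inr (ρ n)) := by
    funext n; cases ρ n <;> rfl
  rw [this]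

theorem ren {P : (ℕ → M) → Prop} (h : Dfn E P) (σ : ℕ → ℕ) :
    Dfn E (fun v => P (fun n => v (σ n))) := h.sub (fun n => Sum.inl (σ n))

theorem mem0 (i j : ℕ) : Dfn E (fun v => E (v i) (v j)) :=
  ⟨Fml.mem i j, Sum.inl, fun _ => Iff.rfl⟩

theorem eq0 (i j : ℕ) : Dfn E (fun v => v i = v j) := ⟨Fml.eq i j, Sum.inl, fun _ => Iff.rfl⟩

theorem bot : Dfn E (fun _ => False) := ⟨Fml.bot, Sum.inl, fun _ => Iff.rfl⟩

instance imp {P Q : (ℕ → M) → Prop} [h1 : Dfn E P] [h2 : Dfn E Q] :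
    Dfn E (fun v => P v → Q v) := by
  obtain ⟨φ, ρ, h1⟩ := h1
  obtain ⟨ψ, σ, h2⟩ := h2
  refine ⟨Fml.imp (φ.ren (fun n => 2 * n)) (ψ.ren (fun n => 2 * n + 1)),
    fun n => if n % 2 = 0 then ρ (n / 2) else σ (n / 2), fun v => imp_congr ?_ ?_⟩
  · rw [h1]; refine Iff.trans ?_ (sat_ren _ _ _).symm
    simp
  · rw [h2]; refine Iff.trans ?_ (sat_ren _ _ _).symm
    have e1 : ∀ n : ℕ, (2 * n + 1) / 2 = n := fun n => by omega
    simp [e1]

instance all {P : (ℕ → M) → M → Prop} [h : Dfn E (fun v => P (fun n => v (n + 1)) (v 0))] :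
    Dfn E (fun v => ∀ x, P v x) := by
  obtain ⟨φ, ρ, h⟩ := h
  refine ⟨Fml.all (φ.ren (fun n => Sum.elim (cons 0 (fun _ => n + 1)) (fun _ => n + 1) (ρ n))),
    fun n => Sum.elim (fun k => Sum.inl (k - 1)) Sum.inr (ρ n),
    fun v => forall_congr' (fun x => (h (cons x v)).trans ?_)⟩
  refine Iff.trans ?_ (sat_ren _ _ _).symm
  have : (fun n => Sum.elim (cons x v) id (ρ n)) = fun n =>
      cons x (fun n => Sum.elim v id (Sum.elim (fun k => Sum.inl (k - 1)) Sum.inr (ρ n)))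
        (Sum.elim (cons 0 (fun _ => n + 1)) (fun _ => n + 1) (ρ n)) := by
    funext n
    rcases e : ρ n with k | c
    · cases k
      · rfl
      · simp [cons, e]
    · simp [cons, e]
  rw [this]

instance not {P : (ℕ → M) → Prop} [Dfn E P] : Dfn E (fun v => ¬ P v) :=
  @imp _ _ _ _ _ bot

instance and {P Q : (ℕ → M) → Prop} [Dfn E P] [Dfn E Q] : Dfn E (fun v => P v ∧ Q v) :=
  (inferInstance : Dfn E (fun v => ¬ (P v → ¬ Q v))).congr (fun _ => by tauto)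

instance or {P Q : (ℕ → M) → Prop} [Dfn E P] [Dfn E Q] : Dfn E (fun v => P v ∨ Q v) :=
  (inferInstance : Dfn E (fun v => ¬ P v → Q v)).congr (fun _ => by tauto)

instance iff {P Q : (ℕ → M) → Prop} [Dfn E P] [Dfn E Q] : Dfn E (fun v => P v ↔ Q v) :=
  (inferInstance : Dfn E (fun v => (P v → Q v) ∧ (Q v → P v))).congr (fun _ => iff_def)

instance ex {P : (ℕ → M) → M → Prop} [h : Dfn E (fun v => P (fun n => v (n + 1)) (v 0))] :
    Dfn E (fun v => ∃ x, P v x) :=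
  (inferInstance : Dfn E (fun v => ¬ ∀ x, ¬ P v x)).congr (fun _ => by simp)

instance const (p : Prop) : Dfn E (fun _ => p) := by
  by_cases h : p
  · exact (@not _ _ _ bot).congr (fun _ => by simp [h])
  · exact bot.congr (fun _ => by simp [h])

end Dfn

namespace Tm

instance var (i : ℕ) : Tm E (fun v => v i) := ⟨Dfn.eq0 0 (i + 1)⟩

instance const (c : M) : Tm E (fun _ => c) :=
  ⟨(Dfn.eq0 0 1).sub (cons (Sum.inl 0) (fun _ => Sum.inr c))⟩

instance ren {t : (ℕ → M) → M} [h : Tm E t] (ρ : ℕ → ℕ) :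
    Tm E (fun v => t (fun n => v (ρ n))) := ⟨h.out.ren (cons 0 (fun n => ρ n + 1))⟩

end Tm

theorem Dfn.two {R : M → M → Prop} (h : Dfn E (fun v => R (v 0) (v 1)))
    (s t : (ℕ → M) → M) [hs : Tm E s] [ht : Tm E t] : Dfn E (fun v => R (s v) (t v)) := by
  have h1 := hs.out.ren (cons 1 (fun n => n + 2))
  have h2 := ht.out.ren (cons 0 (fun n => n + 2))
  have h3 := h.ren (cons 1 (fun _ => 0))
  exact (@Dfn.all _ E (fun v a => ∀ b, a = s v → b = t v → R a b) (@Dfn.all _ E _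
    (@Dfn.imp _ E _ _ h1 (@Dfn.imp _ E _ _ h2 h3)))).congr (fun v => by simp)

instance Dfn.mem {s t : (ℕ → M) → M} [Tm E s] [Tm E t] : Dfn E (fun v => E (s v) (t v)) :=
  Dfn.two (Dfn.mem0 0 1) s t

instance Dfn.eq {s t : (ℕ → M) → M} [Tm E s] [Tm E t] : Dfn E (fun v => s v = t v) :=
  Dfn.two (Dfn.eq0 0 1) s t

instance Dfn.ne {s t : (ℕ → M) → M} [Tm E s] [Tm E t] : Dfn E (fun v => s v ≠ t v) :=
  Dfn.not

theorem Dfn.one {P : M → Prop} (h : Dfn E (fun v => P (v 0)))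
    (s : (ℕ → M) → M) [Tm E s] : Dfn E (fun v => P (s v)) :=
  Dfn.two (R := fun a _ => P a) h s s

theorem Dfn.three {R : M → M → M → Prop} (h : Dfn E (fun v => R (v 0) (v 1) (v 2)))
    (s t r : (ℕ → M) → M) [Tm E s] [Tm E t] [Tm E r] :
    Dfn E (fun v => R (s v) (t v) (r v)) := by
  have h3 : Dfn E (fun v => R (v 2) (v 1) (v 0)) := h.ren (cons 2 (cons 1 (fun _ => 0)))
  exact (inferInstance : Dfn E (fun v => ∀ a b c, a = s v → b = t v → c = r v → R a b c)).congr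
    (fun v => ⟨fun h a b c ha hb hc => ha ▸ hb ▸ hc ▸ h, fun h => h _ _ _ rfl rfl rfl⟩)

theorem Tm.one {G : M → M} (h : Tm E (fun v => G (v 0))) (s : (ℕ → M) → M) [Tm E s] :
    Tm E (fun v => G (s v)) :=
  ⟨Dfn.two (R := fun a b => a = G b) h.out (fun v => v 0) (fun v => s (fun n => v (n + 1)))⟩

theorem Tm.two {G : M → M → M} (h : Tm E (fun v => G (v 0) (v 1))) (s t : (ℕ → M) → M)
    [Tm E s] [Tm E t] : Tm E (fun v => G (s v) (t v)) :=
  ⟨Dfn.three (R := fun a b c => a = G b c) h.out (fun v => v 0) (fun v => s (fun n => v (n + 1)))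
    (fun v => t (fun n => v (n + 1)))⟩

end Pool.Agent.P.MP_92320c_lc
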