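import Mathlib
import Pool.Agent.P.MP_92320c_lc.Dfn

/-! Basic set operations inside a model of ZF. -/

namespace Pool.Agent.P.MP_92320c_lc

universe u

variable {M : Type u}

class ZF (E : M → M → Prop) : Prop where
  out : IsZF E

variable {E : M → M → Prop} [hZ : ZF E]

theorem ext {a b : M} (h : ∀ x, E x a ↔ E x b) : a = b := hZ.out.1 a b h

theorem exists_sep (a : M) (P : M → Prop) [h : Dfn E (fun v => P (v 0))] :
    ∃ b, ∀ x, E x b ↔ E x a ∧ P x := by
  obtain ⟨φ, ρ, h⟩ := h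
  obtain ⟨b, hb⟩ := hZ.out.2.2.2.2.2.2.1
    (φ.ren (fun n => Sum.elim (fun _ => 0) (fun _ => n + 1) (ρ n)))
    (fun n => Sum.elim (fun _ => a) id (ρ n)) a
  refine ⟨b, fun x => (hb x).trans (and_congr_right (fun _ => (sat_ren _ _ _).trans ?_))⟩
  refine Iff.trans ?_ (h (fun _ => x)).symm
  have : (fun n => cons x (fun n => Sum.elim (fun _ => a) id (ρ n))
      (Sum.elim (fun _ => 0) (fun _ => n + 1) (ρ n))) =
      fun n => Sum.elim (fun _ => x) id (ρ n) := by
    funext n
    rcases e : ρ n with k | c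
    · rfl
    · simp [cons, e]
  rw [this]

variable (E)

noncomputable def dflt : M := Classical.choose hZ.out.2.2.2.2.2.1

open Classical in
/-- The set of all `x` with `P x`, if there is one. -/
noncomputable def cls (P : M → Prop) : M :=
  if h : ∃ b, ∀ x, E x b ↔ P x then Classical.choose h else dflt E

variable {E}

theorem mem_cls {P : M → Prop} (h : ∃ b, ∀ x, E x b ↔ P x) {x : M} : E x (cls E P) ↔ P x := by
  rw [cls, dif_pos h]; exact Classical.choose_spec h x

instance Tm.cls {P : (ℕ → M) → M → Prop} [h : Dfn E (fun v => P (fun n => v (n + 1)) (v 0))] :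
    Tm E (fun v => cls E (P v)) := by
  have h2 : Dfn E (fun v => P (fun n => v (n + 2)) (v 0)) := h.ren (cons 0 (fun n => n + 2))
  have h3 : Dfn E (fun v => P (fun n => v (n + 3)) (v 0)) := h.ren (cons 0 (fun n => n + 3))
  refine ⟨(inferInstance : Dfn E (fun v => (∀ x, E x (v 0) ↔ P (fun n => v (n + 1)) x) ∨
    ((¬ ∃ b, ∀ x, E x b ↔ P (fun n => v (n + 1)) x) ∧ v 0 = dflt E))).congr (fun v => ?_)⟩
  by_cases H : ∃ b, ∀ x, E x b ↔ P (fun n => v (n + 1)) x
  · refine ⟨fun e => Or.inl (fun x => by rw [e]; exact mem_cls H), ?_⟩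
    rintro (e | e)
    · exact ext (fun x => (e x).trans (mem_cls H).symm)
    · exact absurd H e.1
  · have e : Pool.Agent.P.MP_92320c_lc.cls E (P (fun n => v (n + 1))) = dflt E := dif_neg H
    rw [e]
    exact ⟨fun e => Or.inr ⟨H, e⟩, fun e => e.elim (fun e => absurd ⟨_, e⟩ H) (fun e => e.2)⟩

variable (E)

noncomputable def sp (a : M) (P : M → Prop) : M := cls E (fun x => E x a ∧ P x)
noncomputable def emp : M := cls E (fun _ => False)
noncomputable def upr (a b : M) : M := cls E (fun x => x = a ∨ x = b)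
noncomputable def un (a b : M) : M := cls E (fun x => E x a ∨ E x b)
noncomputable def ins (a s : M) : M := cls E (fun x => x = a ∨ E x s)
noncomputable def pow (a : M) : M := cls E (fun x => ∀ y, E y x → E y a)
noncomputable def op (a b : M) : M := upr E (upr E a a) (upr E a b)
noncomputable def prod (A B : M) : M := cls E (fun p => ∃ a b, E a A ∧ E b B ∧ p = op E a b)
noncomputable def rel (A B : M) (P : M → M → Prop) : M :=
  sp E (prod E A B) (fun p => ∃ a b, p = op E a b ∧ P a b)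
noncomputable def succ (n : M) : M := ins E n n
noncomputable def om : M := cls E (fun x => ∀ w, IsInductive E w → E x w)

variable {E}

section inst

variable {a b : (ℕ → M) → M} [Tm E a] [Tm E b]

instance Tm.sp {P : (ℕ → M) → M → Prop} [h : Dfn E (fun v => P (fun n => v (n + 1)) (v 0))] :
    Tm E (fun v => sp E (a v) (P v)) := by
  unfold Pool.Agent.P.MP_92320c_lc.sp; infer_instance
instance Tm.upr : Tm E (fun v => upr E (a v) (b v)) := by
  unfold Pool.Agent.P.MP_92320c_lc.upr; infer_instance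
instance Tm.un : Tm E (fun v => un E (a v) (b v)) := by
  unfold Pool.Agent.P.MP_92320c_lc.un; infer_instance
instance Tm.ins : Tm E (fun v => ins E (a v) (b v)) := by
  unfold Pool.Agent.P.MP_92320c_lc.ins; infer_instance
instance Tm.pow : Tm E (fun v => pow E (a v)) := by
  unfold Pool.Agent.P.MP_92320c_lc.pow; infer_instance
instance Tm.op : Tm E (fun v => op E (a v) (b v)) := by
  unfold Pool.Agent.P.MP_92320c_lc.op; infer_instance
instance Tm.prod : Tm E (fun v => prod E (a v) (b v)) := by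
  unfold Pool.Agent.P.MP_92320c_lc.prod; infer_instance
instance Tm.succ : Tm E (fun v => succ E (a v)) := by
  unfold Pool.Agent.P.MP_92320c_lc.succ; infer_instance
instance Tm.rel {P : (ℕ → M) → M → M → Prop}
    [h : Dfn E (fun v => P (fun n => v (n + 2)) (v 1) (v 0))] :
    Tm E (fun v => rel E (a v) (b v) (P v)) := by
  have h3 : Dfn E (fun v => P (fun n => v (n + 3)) (v 1) (v 0)) :=
    h.ren (cons 0 (cons 1 (fun n => n + 3)))
  unfold Pool.Agent.P.MP_92320c_lc.rel; infer_instance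

end inst

theorem mem_sp {a x : M} {P : M → Prop} [Dfn E (fun v => P (v 0))] :
    E x (sp E a P) ↔ E x a ∧ P x := mem_cls (exists_sep a P)

theorem mem_cls_of {P : M → Prop} [Dfn E (fun v => P (v 0))] (a : M) (h : ∀ x, P x → E x a)
    {x : M} : E x (cls E P) ↔ P x :=
  mem_cls ⟨sp E a P, fun y => mem_sp.trans ⟨fun h => h.2, fun h' => ⟨h y h', h'⟩⟩⟩

theorem not_mem_emp (x : M) : ¬ E x (emp E) :=
  (mem_cls_of (P := fun _ => False) (dflt E) (fun _ h => h.elim)).mp

theorem mem_upr {a b x : M} : E x (upr E a b) ↔ x = a ∨ x = b := mem_cls (hZ.out.2.2.1 a b)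

theorem mem_un {a b x : M} : E x (un E a b) ↔ E x a ∨ E x b := by
  obtain ⟨c, hc⟩ := hZ.out.2.2.2.1 (upr E a b)
  exact mem_cls ⟨c, fun y => (hc y).trans (by simp [mem_upr])⟩

theorem mem_ins {a s x : M} : E x (ins E a s) ↔ x = a ∨ E x s :=
  mem_cls ⟨un E (upr E a a) s, fun y => by simp [mem_un, mem_upr]⟩

theorem mem_pow {a x : M} : E x (pow E a) ↔ ∀ y, E y x → E y a := mem_cls (hZ.out.2.2.2.2.1 a)

theorem upr_inj {a b c : M} (h : upr E a b = upr E a c) : b = c := by
  have h1 : E b (upr E a c) := h ▸ mem_upr.mpr (Or.inr rfl)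
  have h2 : E c (upr E a b) := h ▸ mem_upr.mpr (Or.inr rfl)
  rcases mem_upr.mp h1 with e | e
  · rcases mem_upr.mp h2 with e' | e'
    · exact e.trans e'.symm
    · exact e'.symm
  · exact e

theorem op_inj {a b c d : M} (h : op E a b = op E c d) : a = c ∧ b = d := by
  have h1 : E (upr E a a) (op E c d) := h ▸ mem_upr.mpr (Or.inl rfl)
  have h2 : a = c := by
    rcases mem_upr.mp h1 with e | e
    · have : E c (upr E a a) := e ▸ mem_upr.mpr (Or.inl rfl)
      exact ((mem_upr.mp this).elim id id).symm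
    · have : E c (upr E a a) := e ▸ mem_upr.mpr (Or.inl rfl)
      exact ((mem_upr.mp this).elim id id).symm
  subst h2
  exact ⟨rfl, upr_inj (upr_inj h)⟩

theorem op_eq {a b c d : M} : op E a b = op E c d ↔ a = c ∧ b = d :=
  ⟨op_inj, fun h => h.1 ▸ h.2 ▸ rfl⟩

theorem mem_prod {A B p : M} : E p (prod E A B) ↔ ∃ a b, E a A ∧ E b B ∧ p = op E a b := by
  refine mem_cls_of (pow E (pow E (un E A B))) ?_
  rintro _ ⟨a, b, ha, hb, rfl⟩
  refine mem_pow.mpr (fun y hy => mem_pow.mpr (fun z hz => mem_un.mpr ?_))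
  rcases mem_upr.mp hy with rfl | rfl <;> rcases mem_upr.mp hz with rfl | rfl <;> simp [ha, hb]

theorem op_mem_prod {A B a b : M} : E (op E a b) (prod E A B) ↔ E a A ∧ E b B := by
  refine mem_prod.trans ⟨?_, fun h => ⟨a, b, h.1, h.2, rfl⟩⟩
  rintro ⟨c, d, hc, hd, e⟩
  obtain ⟨rfl, rfl⟩ := op_inj e
  exact ⟨hc, hd⟩

theorem mem_rel {A B p : M} {P : M → M → Prop} [h : Dfn E (fun v => P (v 0) (v 1))] :
    E p (rel E A B P) ↔ E p (prod E A B) ∧ ∃ a b, p = op E a b ∧ P a b := by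
  have := h.two
  exact mem_sp

theorem op_mem_rel {A B a b : M} {P : M → M → Prop} [h : Dfn E (fun v => P (v 0) (v 1))] :
    E (op E a b) (rel E A B P) ↔ E a A ∧ E b B ∧ P a b := by
  rw [mem_rel (E := E), op_mem_prod (E := E), and_assoc]
  refine and_congr_right (fun _ => and_congr_right (fun _ => ⟨?_, fun h => ⟨a, b, rfl, h⟩⟩))
  rintro ⟨c, d, e, h⟩
  obtain ⟨rfl, rfl⟩ := op_inj e
  exact h

theorem rel_mem_pow {A B : M} {P : M → M → Prop} [h : Dfn E (fun v => P (v 0) (v 1))] :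
    E (rel E A B P) (pow E (prod E A B)) := mem_pow.mpr (fun _ hy => (mem_rel.mp hy).1)

theorem ext_rel {A B g h : M} (hg : E g (pow E (prod E A B))) (hh : E h (pow E (prod E A B)))
    (H : ∀ a b, E a A → E b B → (E (op E a b) g ↔ E (op E a b) h)) : g = h := by
  refine ext (E := E) (fun p => ⟨fun hp => ?_, fun hp => ?_⟩)
  · obtain ⟨a, b, ha, hb, rfl⟩ := mem_prod.mp (mem_pow.mp hg p hp)
    exact (H a b ha hb).mp hp
  · obtain ⟨a, b, ha, hb, rfl⟩ := mem_prod.mp (mem_pow.mp hh p hp)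
    exact (H a b ha hb).mpr hp

theorem mem_irrefl (a : M) : ¬ E a a := by
  intro h
  obtain ⟨x, hx, H⟩ := hZ.out.2.1 (upr E a a) ⟨a, mem_upr.mpr (Or.inl rfl)⟩
  have : x = a := (mem_upr.mp hx).elim id id
  subst this
  exact H x h hx

theorem mem_succ {n x : M} : E x (succ E n) ↔ x = n ∨ E x n := mem_ins

theorem isOPair_iff {p a b : M} : IsOPair E p a b ↔ p = op E a b := by
  have : IsOPair E (op E a b) a b := by
    intro x
    rw [op, mem_upr (E := E)]
    refine or_congr ⟨fun e y => by simp [e, mem_upr], fun e => ext (E := E) (fun y => ?_)⟩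
      ⟨fun e y => by simp [e, mem_upr], fun e => ext (E := E) (fun y => ?_)⟩
    · simp [e, mem_upr]
    · simp [e, mem_upr]
  exact ⟨fun h => ext (E := E) (fun x => (h x).trans (this x).symm), fun e => e ▸ this⟩

theorem rel_iff {f a b : M} : Rel E f a b ↔ E (op E a b) f :=
  ⟨fun ⟨_, h1, h2⟩ => isOPair_iff.mp h2 ▸ h1, fun h => ⟨_, h, isOPair_iff.mpr rfl⟩⟩

theorem isSucc_iff {n s : M} : IsSucc E n s ↔ s = succ E n :=
  ⟨fun h => ext (E := E) (fun x => (h x).trans (or_comm.trans mem_succ.symm)),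
    fun e _ => e ▸ mem_succ.trans or_comm⟩

theorem isInductive_iff {w : M} :
    IsInductive E w ↔ E (emp E) w ∧ ∀ x, E x w → E (succ E x) w := by
  refine and_congr ⟨?_, fun h => ⟨_, h, not_mem_emp⟩⟩ (forall_congr' (fun x => imp_congr_right
    (fun _ => ⟨?_, fun h => ⟨_, h, isSucc_iff.mpr rfl⟩⟩)))
  · rintro ⟨e, h1, h2⟩
    have : e = emp E := ext (E := E) (fun x => iff_of_false (h2 x) (not_mem_emp x))
    exact this ▸ h1
  · rintro ⟨s, h1, h2⟩
    exact isSucc_iff.mp h2 ▸ h1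

theorem mem_om {x : M} : E x (om E) ↔ ∀ w, IsInductive E w → E x w := by
  obtain ⟨w, hw⟩ := hZ.out.2.2.2.2.2.1
  have : Dfn E (fun v => ∀ w, IsInductive E w → E (v 0) w) := by
    unfold IsInductive IsSucc; infer_instance
  exact mem_cls_of w (fun x h => h w hw)

theorem emp_mem_om : E (emp E) (om E) := mem_om.mpr (fun _ hw => (isInductive_iff.mp hw).1)

theorem succ_mem_om {n : M} (h : E n (om E)) : E (succ E n) (om E) :=
  mem_om.mpr (fun w hw => (isInductive_iff.mp hw).2 n (mem_om.mp h w hw))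

theorem om_ind {P : M → Prop} [Dfn E (fun v => P (v 0))] (h0 : P (emp E))
    (h1 : ∀ n, E n (om E) → P n → P (succ E n)) {n : M} (hn : E n (om E)) : P n :=
  (mem_sp.mp (mem_om.mp hn (sp E (om E) P) (isInductive_iff.mpr ⟨mem_sp.mpr ⟨emp_mem_om, h0⟩,
    fun x hx => mem_sp.mpr ⟨succ_mem_om (mem_sp.mp hx).1,
      h1 x (mem_sp.mp hx).1 (mem_sp.mp hx).2⟩⟩))).2

theorem isOmega_iff {w : M} : IsOmega E w ↔ w = om E := by
  have h0 : IsInductive E (om E) := isInductive_iff.mpr ⟨emp_mem_om, fun _ => succ_mem_om⟩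
  exact ⟨fun h => ext (E := E) (fun x => ⟨h.2 _ h0 x, fun hx => mem_om.mp hx w h.1⟩),
    fun e => e ▸ ⟨h0, fun w' hw x hx => mem_om.mp hx w' hw⟩⟩

/-- The order of `ω`. -/
def Le (E : M → M → Prop) (m n : M) : Prop := m = n ∨ E m n

instance Dfn.le {a b : (ℕ → M) → M} [Tm E a] [Tm E b] : Dfn E (fun v => Le E (a v) (b v)) := by
  unfold Le; infer_instance

theorem le_succ {m n : M} (h : Le E m n) : Le E m (succ E n) := Or.inr (mem_succ.mpr h)

theorem le_ind {P : M → Prop} [Dfn E (fun v => P (v 0))] {m : M} (h0 : P m)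
    (h1 : ∀ n, E n (om E) → Le E m n → P n → P (succ E n)) {n : M} (hn : E n (om E))
    (h : Le E m n) : P n := by
  refine om_ind (P := fun n => Le E m n → P n) ?_ ?_ hn h
  · rintro (rfl | h)
    · exact h0
    · exact absurd h (not_mem_emp _)
  · rintro n hn ih (rfl | h)
    · exact h0
    · exact h1 n hn (mem_succ.mp h) (ih (mem_succ.mp h))

theorem succ_le {m n : M} (hn : E n (om E)) (h : Le E m n) : m = n ∨ Le E (succ E m) n :=
  le_ind (P := fun n => m = n ∨ Le E (succ E m) n) (Or.inl rfl)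
    (fun _ _ _ ih => Or.inr (ih.elim (fun e => e ▸ Or.inl rfl) le_succ)) hn h

theorem le_total {m n : M} (hm : E m (om E)) (hn : E n (om E)) : Le E m n ∨ Le E n m := by
  refine om_ind (P := fun n => Le E m n ∨ Le E n m) (Or.inr ?_) ?_ hn
  · exact om_ind (P := fun m => Le E (emp E) m) (Or.inl rfl) (fun _ _ => le_succ) hm
  · rintro n - (h | h)
    · exact Or.inl (le_succ h)
    · rcases succ_le hm h with e | e
      · exact Or.inl (le_succ (Or.inl e.symm))
      · exact Or.inr e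

theorem succ_inj {m n : M} (h : succ E m = succ E n) : m = n := by
  by_contra hne
  have h1 : E m n := (mem_succ.mp (h ▸ mem_succ.mpr (Or.inl rfl))).resolve_left hne
  have h2 : E n m := (mem_succ.mp (h.symm ▸ mem_succ.mpr (Or.inl rfl))).resolve_left (Ne.symm hne)
  obtain ⟨x, hx, H⟩ := hZ.out.2.1 (upr E m n) ⟨m, mem_upr.mpr (Or.inl rfl)⟩
  rcases mem_upr.mp hx with rfl | rfl
  · exact H n h2 (mem_upr.mpr (Or.inr rfl))
  · exact H m h1 (mem_upr.mpr (Or.inl rfl))

theorem succ_ne_emp (n : M) : succ E n ≠ emp E :=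
  fun h => not_mem_emp n (h ▸ mem_succ.mpr (Or.inl rfl))

/-- Recursion on `ω`. -/
theorem exists_seq (X a : M) (ha : E a (pow E X)) (G : M → M → M)
    [hG : Tm E (fun v => G (v 0) (v 1))] (hX : ∀ n x, E x (pow E X) → E (G n x) (pow E X)) :
    ∃ s : M → M, Tm E (fun v => s (v 0)) ∧ s (emp E) = a ∧
      ∀ n, E n (om E) → s (succ E n) = G n (s n) := by
  have hG2 := hG.two
  let S : M → M → Prop := fun n x => ∀ c, E (op E (emp E) a) c →
    (∀ m y, E m (om E) → E (op E m y) c → E (op E (succ E m) (G m y)) c) → E (op E n x) c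
  have S0 : S (emp E) a := fun _ h _ => h
  have S1 : ∀ m y, E m (om E) → S m y → S (succ E m) (G m y) :=
    fun m y hm h c h0 h1 => h1 m y hm (h c h0 h1)
  have inv : ∀ n x, S n x → E x (pow E X) ∧ ((n = emp E ∧ x = a) ∨
      ∃ m y, E m (om E) ∧ S m y ∧ n = succ E m ∧ x = G m y) := by
    intro n x h
    have := h (rel E (om E) (pow E X) (fun n x => S n x ∧ ((n = emp E ∧ x = a) ∨
      ∃ m y, E m (om E) ∧ S m y ∧ n = succ E m ∧ x = G m y)))
      (op_mem_rel.mpr ⟨emp_mem_om, ha, S0, Or.inl ⟨rfl, rfl⟩⟩) (fun m y hm hy => by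
        obtain ⟨-, g1, g2, -⟩ := op_mem_rel.mp hy
        exact op_mem_rel.mpr ⟨succ_mem_om hm, hX _ _ g1, S1 m y hm g2,
          Or.inr ⟨m, y, hm, g2, rfl, rfl⟩⟩)
    exact ⟨(op_mem_rel.mp this).2.1, (op_mem_rel.mp this).2.2.2⟩
  have uniq : ∀ n, E n (om E) → ∃ x, S n x ∧ ∀ y, S n y → y = x := by
    intro n hn
    refine om_ind (P := fun n => ∃ x, S n x ∧ ∀ y, S n y → y = x) ⟨a, S0, fun y hy => ?_⟩ ?_ hn
    · rcases (inv _ _ hy).2 with h | ⟨m, z, -, -, h, -⟩
      · exact h.2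
      · exact absurd h.symm (succ_ne_emp m)
    · rintro n hn ⟨x, h1, h2⟩
      refine ⟨G n x, S1 n x hn h1, fun y hy => ?_⟩
      rcases (inv _ _ hy).2 with h | ⟨m, z, -, g1, g2, g3⟩
      · exact absurd h.1 (succ_ne_emp n)
      · obtain rfl := succ_inj g2
        rw [g3, h2 z g1]
  have val : ∀ n x, E n (om E) → S n x → sp E X (fun z => ∃ x, S n x ∧ E z x) = x := by
    intro n x hn hx
    obtain ⟨y, -, h2⟩ := uniq n hn
    refine ext (E := E) (fun z => mem_sp.trans ⟨?_, fun h =>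
      ⟨mem_pow.mp (inv _ _ hx).1 z h, x, hx, h⟩⟩)
    rintro ⟨-, x', g1, g2⟩
    rwa [h2 x hx, ← h2 x' g1]
  refine ⟨fun n => sp E X (fun z => ∃ x, S n x ∧ E z x), inferInstance, val _ _ emp_mem_om S0,
    fun n hn => ?_⟩
  obtain ⟨x, hx, -⟩ := uniq n hn
  exact (val _ _ (succ_mem_om hn) (S1 n x hn hx)).trans (congrArg (G n) (val n x hn hx).symm)

end Pool.Agent.P.MP_92320c_lc
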