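import Mathlib
import Pool.Agent.P.MP_92320c_lc.Basic

/-! Finite sets inside a model of ZF. -/

namespace Pool.Agent.P.MP_92320c_lc

universe u

variable {M : Type u} (E : M → M → Prop) [hZ : ZF E]

/-- Kuratowski finiteness. -/
def KF (s : M) : Prop :=
  ∀ c, E (emp E) c → (∀ t a, E t c → E a s → E (ins E a t) c) → E s c

/-- `P` is contained in a finite set. -/
def FinP (P : M → Prop) : Prop := ∃ s, KF E s ∧ ∀ x, P x → E x s

variable {E}

instance Dfn.kf {a : (ℕ → M) → M} [Tm E a] : Dfn E (fun v => KF E (a v)) := by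
  unfold KF; infer_instance

instance Dfn.finP {P : (ℕ → M) → M → Prop} [h : Dfn E (fun v => P (fun n => v (n + 1)) (v 0))] :
    Dfn E (fun v => FinP E (P v)) := by
  have h2 : Dfn E (fun v => P (fun n => v (n + 2)) (v 0)) := h.ren (cons 0 (fun n => n + 2))
  unfold FinP; infer_instance

theorem kf_emp : KF E (emp E) := fun _ h _ => h

theorem KF.ins {s : M} (h : KF E s) (a : M) : KF E (ins E a s) := fun c h0 h1 =>
  h1 s a (h c h0 (fun t b ht hb => h1 t b ht (mem_ins.mpr (Or.inr hb)))) (mem_ins.mpr (Or.inl rfl))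

theorem KF.ind {P : M → Prop} [Dfn E (fun v => P (v 0))] {s : M} (h : KF E s) (h0 : P (emp E))
    (h1 : ∀ t a, KF E t → E a s → (∀ x, E x t → E x s) → P t → P (Pool.Agent.P.MP_92320c_lc.ins E a t)) :
    P s := by
  have := h (sp E (pow E s) (fun t => KF E t ∧ P t))
    (mem_sp.mpr ⟨mem_pow.mpr (fun y hy => absurd hy (not_mem_emp y)), kf_emp, h0⟩)
    (fun t a ht ha => by
      obtain ⟨g1, g2, g3⟩ := mem_sp.mp ht
      exact mem_sp.mpr ⟨mem_pow.mpr (fun y hy => (mem_ins.mp hy).elim (fun e => e ▸ ha)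
        (mem_pow.mp g1 y)), g2.ins a, h1 t a g2 ha (mem_pow.mp g1) g3⟩)
  exact (mem_sp.mp this).2.2

theorem KF.sub {s t : M} (h : KF E s) (ht : ∀ x, E x t → E x s) : KF E t := by
  refine h.ind (P := fun s => ∀ t, (∀ x, E x t → E x s) → KF E t) (fun t ht => ?_) ?_ t ht
  · have : t = emp E := ext (E := E) (fun x => ⟨ht x, fun h => absurd h (not_mem_emp x)⟩)
    exact this ▸ kf_emp
  · intro s a _ _ _ ih t ht
    by_cases ha : E a t
    · have : t = Pool.Agent.P.MP_92320c_lc.ins E a (sp E t (fun x => x ≠ a)) :=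
        ext (E := E) (fun x => by
          rw [mem_ins (E := E), mem_sp (E := E)]
          by_cases e : x = a <;> simp [e, ha])
      rw [this]
      exact (ih _ (fun x hx => (mem_ins.mp (ht x (mem_sp.mp hx).1)).resolve_left
        (mem_sp.mp hx).2)).ins a
    · exact ih t (fun x hx => (mem_ins.mp (ht x hx)).resolve_left (fun e => ha (e ▸ hx)))

theorem KF.finP {s : M} (h : KF E s) : FinP E (fun x => E x s) := ⟨s, h, fun _ h => h⟩

theorem FinP.kf {P : M → Prop} (h : FinP E P) {s : M} (hs : ∀ x, E x s → P x) : KF E s := by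
  obtain ⟨t, h1, h2⟩ := h
  exact h1.sub (fun x hx => h2 x (hs x hx))

theorem FinP.mono {P Q : M → Prop} (h : FinP E P) (H : ∀ x, Q x → P x) : FinP E Q := by
  obtain ⟨t, h1, h2⟩ := h
  exact ⟨t, h1, fun x hx => h2 x (H x hx)⟩

theorem KF.un {s t : M} (hs : KF E s) (ht : KF E t) : KF E (un E s t) :=
  hs.ind (P := fun s => KF E (Pool.Agent.P.MP_92320c_lc.un E s t))
    (ht.sub (fun x hx => (mem_un.mp hx).resolve_left (not_mem_emp x)))
    (fun s a _ _ _ ih => (ih.ins a).sub (fun x hx => by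
      simp only [mem_un, mem_ins] at hx ⊢; tauto))

theorem FinP.or {P Q : M → Prop} (h1 : FinP E P) (h2 : FinP E Q) : FinP E (fun x => P x ∨ Q x) := by
  obtain ⟨s, g1, g2⟩ := h1
  obtain ⟨t, g3, g4⟩ := h2
  exact ⟨un E s t, g1.un g3, fun x hx => mem_un.mpr (hx.imp (g2 x) (g4 x))⟩

theorem finP_false : FinP E (fun _ => False) := ⟨_, kf_emp, fun _ h => h.elim⟩

theorem finP_eq (a : M) : FinP E (fun x => x = a) :=
  ⟨_, kf_emp.ins a, fun _ h => mem_ins.mpr (Or.inl h)⟩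

theorem finP_sub {P : M → Prop} (h : ∀ x y, P x → P y → x = y) : FinP E P := by
  by_cases H : ∃ a, P a
  · obtain ⟨a, ha⟩ := H
    exact (finP_eq a).mono (fun x hx => h x a hx ha)
  · exact finP_false.mono (fun x hx => H ⟨x, hx⟩)

theorem FinP.bind {D : M → Prop} (hD : FinP E D) {P : M → M → Prop}
    [h : Dfn E (fun v => P (v 0) (v 1))] (H : ∀ d, FinP E (P d)) :
    FinP E (fun x => ∃ d, D d ∧ P d x) := by
  have := h.two
  obtain ⟨s, h1, h2⟩ := hD
  refine (h1.ind (P := fun t => FinP E (fun x => ∃ d, E d t ∧ P d x))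
    (finP_false.mono (fun x ⟨d, hd, _⟩ => not_mem_emp d hd)) ?_).mono
    (fun x ⟨d, hd, h⟩ => ⟨d, h2 d hd, h⟩)
  intro t a _ _ _ ih
  refine ((H a).or ih).mono ?_
  rintro x ⟨d, hd, h⟩
  rcases mem_ins.mp hd with rfl | hd
  · exact Or.inl h
  · exact Or.inr ⟨d, hd, h⟩

theorem KF.prod {s t : M} (hs : KF E s) (ht : KF E t) : KF E (prod E s t) :=
  (hs.finP.bind (P := fun a p => ∃ b, E b t ∧ p = op E a b)
    (fun a => ht.finP.bind (P := fun b p => p = op E a b) (fun _ => finP_eq _))).kf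
    (fun _ hp => by
      obtain ⟨a, b, ha, hb, e⟩ := mem_prod.mp hp
      exact ⟨a, ha, b, hb, e⟩)

theorem KF.pow {s : M} (hs : KF E s) : KF E (pow E s) := by
  refine hs.ind (P := fun s => KF E (Pool.Agent.P.MP_92320c_lc.pow E s))
    ((finP_eq (emp E)).kf (fun x hx => ext (E := E) (fun y =>
      ⟨mem_pow.mp hx y, fun h => absurd h (not_mem_emp y)⟩))) ?_
  intro t a _ _ _ ih
  refine (ih.finP.or (ih.finP.bind (P := fun y x => x = Pool.Agent.P.MP_92320c_lc.ins E a y)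
    (fun _ => finP_eq _))).kf (fun x hx => ?_)
  by_cases ha : E a x
  · refine Or.inr ⟨sp E x (fun z => z ≠ a), mem_pow.mpr (fun z hz =>
      (mem_ins.mp (mem_pow.mp hx z (mem_sp.mp hz).1)).resolve_left (mem_sp.mp hz).2),
      ext (E := E) (fun z => ?_)⟩
    rw [mem_ins (E := E), mem_sp (E := E)]
    by_cases e : z = a <;> simp [e, ha]
  · exact Or.inl (mem_pow.mpr (fun z hz =>
      (mem_ins.mp (mem_pow.mp hx z hz)).resolve_left (fun e => ha (e ▸ hz))))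

theorem KF.dom {g : M} (h : KF E g) : FinP E (fun a => ∃ b, E (op E a b) g) :=
  (h.finP.bind (P := fun p a => ∃ b, p = op E a b) (fun _ => finP_sub
    (fun _ _ ⟨_, h1⟩ ⟨_, h2⟩ => (op_inj (h1.symm.trans h2)).1))).mono
    (fun _ ⟨b, hb⟩ => ⟨_, hb, b, rfl⟩)

theorem KF.ran {g : M} (h : KF E g) : FinP E (fun b => ∃ a, E (op E a b) g) :=
  (h.finP.bind (P := fun p b => ∃ a, p = op E a b) (fun _ => finP_sub
    (fun _ _ ⟨_, h1⟩ ⟨_, h2⟩ => (op_inj (h1.symm.trans h2)).2))).mono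
    (fun _ ⟨a, ha⟩ => ⟨_, ha, a, rfl⟩)

theorem kf_rel {A B : M} {P : M → M → Prop} [Dfn E (fun v => P (v 0) (v 1))]
    (h1 : FinP E (fun a => ∃ b, P a b)) (h2 : FinP E (fun b => ∃ a, P a b)) :
    KF E (rel E A B P) := by
  obtain ⟨s, g1, g2⟩ := h1
  obtain ⟨t, g3, g4⟩ := h2
  refine (g1.prod g3).sub (fun p hp => ?_)
  obtain ⟨-, a, b, rfl, h⟩ := mem_rel.mp hp
  exact op_mem_prod.mpr ⟨g2 a ⟨b, h⟩, g4 b ⟨a, h⟩⟩

/-- A nonempty family of finite sets has a minimal element. -/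
theorem exists_min {P : M → Prop} [hP : Dfn E (fun v => P (v 0))] {s : M} (hs : KF E s) (h : P s) :
    ∃ z, P z ∧ (∀ x, E x z → E x s) ∧
      ∀ y, P y → (∀ x, E x y → E x z) → ∀ x, E x z → E x y := by
  have key : ∀ c, (∃ z, E z c ∧ ∀ x, E x z → E x s) →
      ∃ z, E z c ∧ ∀ y, E y c → (∀ x, E x y → E x z) → ∀ x, E x z → E x y := by
    refine hs.ind (P := fun s => ∀ c, (∃ z, E z c ∧ ∀ x, E x z → E x s) →
      ∃ z, E z c ∧ ∀ y, E y c → (∀ x, E x y → E x z) → ∀ x, E x z → E x y) ?_ ?_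
    · rintro c ⟨z, h1, h2⟩
      exact ⟨z, h1, fun y _ _ x hx => absurd (h2 x hx) (not_mem_emp x)⟩
    · rintro t a - - - ih c ⟨z, h1, h2⟩
      by_cases H : ∃ z, E z c ∧ ∀ x, E x z → E x t
      · exact ih c H
      have H2 : ∀ y, E y c → (∀ x, E x y → E x (ins E a t)) →
          E (sp E y (fun x => x ≠ a)) (sp E (pow E t) (fun y => E (ins E a y) c)) ∧ E a y := by
        intro y hy g
        have ha : E a y := by
          by_contra ha
          exact H ⟨y, hy, fun x hx => (mem_ins.mp (g x hx)).resolve_left (fun e => ha (e ▸ hx))⟩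
        have : ins E a (sp E y (fun x => x ≠ a)) = y := ext (E := E) (fun x => by
          rw [mem_ins (E := E), mem_sp (E := E)]
          by_cases e : x = a <;> simp [e, ha])
        exact ⟨mem_sp.mpr ⟨mem_pow.mpr (fun x hx => (mem_ins.mp (g x (mem_sp.mp hx).1)).resolve_left
          (mem_sp.mp hx).2), by rwa [this]⟩, ha⟩
      obtain ⟨y, g1, g2⟩ := ih (sp E (pow E t) (fun y => E (ins E a y) c))
        ⟨_, (H2 z h1 h2).1, mem_pow.mp (mem_sp.mp (H2 z h1 h2).1).1⟩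
      refine ⟨ins E a y, (mem_sp.mp g1).2, fun y' hy' g3 x hx => ?_⟩
      have g4 := H2 y' hy' (fun x hx => mem_ins.mpr ((mem_ins.mp (g3 x hx)).imp id
        (mem_pow.mp (mem_sp.mp g1).1 x)))
      rcases mem_ins.mp hx with rfl | hx
      · exact g4.2
      · exact (mem_sp.mp (g2 _ g4.1 (fun x hx => (mem_ins.mp (g3 x (mem_sp.mp hx).1)).resolve_left
          (mem_sp.mp hx).2) x hx)).1
  obtain ⟨z, h1, h2⟩ := key (sp E (pow E s) P)
    ⟨s, mem_sp.mpr ⟨mem_pow.mpr (fun _ h => h), h⟩, fun _ h => h⟩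
  have h3 := mem_pow.mp (mem_sp.mp h1).1
  exact ⟨z, (mem_sp.mp h1).2, h3, fun y hy g =>
    h2 y (mem_sp.mpr ⟨mem_pow.mpr (fun x hx => h3 x (g x hx)), hy⟩) g⟩

/-- Finite sets are Dedekind finite. -/
theorem ded {S : M → Prop} [hS : Dfn E (fun v => S (v 0))] (hs : FinP E S) {r : M → M → Prop}
    [hr : Dfn E (fun v => r (v 0) (v 1))] (h1 : ∀ d, S d → ∃ k, S k ∧ r d k)
    (h2 : ∀ d d' k, r d k → r d' k → d = d') {t : M} (ht : S t) : ∃ d, S d ∧ r d t := by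
  have := hr.two
  have := hS.one
  by_contra hcon
  obtain ⟨s, g1, g2⟩ := hs
  obtain ⟨z, ⟨z1, z2, t', z3, z4⟩, -, hz⟩ := exists_min (P := fun z => (∀ x, E x z → S x) ∧
      (∀ d k, E d z → S k → r d k → E k z) ∧ ∃ t, E t z ∧ ¬ ∃ d, E d z ∧ r d t)
    (g1.sub (t := sp E s S) (fun x hx => (mem_sp.mp hx).1))
    ⟨fun x hx => (mem_sp.mp hx).2, fun d k _ hk _ => mem_sp.mpr ⟨g2 k hk, hk⟩, t,
      mem_sp.mpr ⟨g2 t ht, ht⟩, fun ⟨d, e1, e2⟩ => hcon ⟨d, (mem_sp.mp e1).2, e2⟩⟩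
  obtain ⟨k, k1, k2⟩ := h1 t' (z1 t' z3)
  have := hz (sp E z (fun k => ∃ d, E d z ∧ r d k)) ⟨fun x hx => z1 x (mem_sp.mp hx).1,
    fun d k hd hk e => mem_sp.mpr ⟨z2 d k (mem_sp.mp hd).1 hk e, d, (mem_sp.mp hd).1, e⟩,
    k, mem_sp.mpr ⟨z2 t' k z3 k1 k2, t', z3, k2⟩,
    fun ⟨d, e1, e2⟩ => z4 (h2 d t' k e2 k2 ▸ (mem_sp.mp e1).2)⟩ (fun x hx => (mem_sp.mp hx).1) t' z3
  exact z4 (mem_sp.mp this).2

theorem isFun_iff {f A B : M} : IsFun E f A B ↔ E f (pow E (prod E A B)) ∧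
    (∀ a, E a A → ∃ b, E (op E a b) f) ∧ ∀ a b b', E (op E a b) f → E (op E a b') f → b = b' := by
  simp only [IsFun, isOPair_iff, rel_iff, mem_pow, mem_prod]
  refine and_congr_right (fun h => ⟨fun H => ⟨fun a ha => (H a ha).exists, fun a b b' h1 h2 => ?_⟩,
    fun H a ha => ?_⟩)
  · obtain ⟨c, d, hc, -, e⟩ := h _ h1
    exact (H a ((op_inj e).1 ▸ hc)).unique h1 h2
  · obtain ⟨b, hb⟩ := H.1 a ha
    exact ⟨b, hb, fun b' hb' => H.2 a b' b hb' hb⟩

theorem isFinite_iff {A : M} : IsFinite E A ↔ KF E A := by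
  simp only [IsFinite, isOmega_iff, isFun_iff, Injective, Onto, rel_iff]
  constructor
  · rintro ⟨_, n, f, rfl, hn, ⟨h1, h2, -⟩, h3, -⟩
    have : KF E n := om_ind (P := fun n => KF E n) kf_emp (fun n _ h => h.ins n) hn
    refine (this.finP.bind (P := fun i a => E (op E a i) f)
      (fun i => finP_sub (fun x y => h3 x y i))).kf (fun a ha => ?_)
    obtain ⟨b, hb⟩ := h2 a ha
    exact ⟨b, (op_mem_prod.mp (mem_pow.mp h1 _ hb)).2, hb⟩
  · intro h
    refine ⟨om E, ?_⟩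
    simp only [true_and]
    refine h.ind (P := fun A => ∃ n f, E n (om E) ∧ (E f (pow E (prod E A n)) ∧
      (∀ a, E a A → ∃ b, E (op E a b) f) ∧ ∀ a b b', E (op E a b) f → E (op E a b') f → b = b') ∧
      (∀ a a' b, E (op E a b) f → E (op E a' b) f → a = a') ∧ ∀ b, E b n → ∃ a, E (op E a b) f)
      ⟨emp E, emp E, emp_mem_om, ?_⟩ ?_
    · simp [mem_pow, not_mem_emp]
    rintro t a - - - ⟨n, f, hn, ⟨h1, h2, h3⟩, h4, h5⟩
    by_cases ha : E a t
    · have : ins E a t = t := ext (E := E) (fun x =>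
        mem_ins.trans ⟨fun h => h.elim (fun e => e ▸ ha) id, Or.inr⟩)
      rw [this]
      exact ⟨n, f, hn, ⟨h1, h2, h3⟩, h4, h5⟩
    have g1 : ∀ b, ¬ E (op E a b) f := fun b hb => ha (op_mem_prod.mp (mem_pow.mp h1 _ hb)).1
    have g2 : ∀ b, ¬ E (op E b n) f := fun b hb =>
      mem_irrefl n (op_mem_prod.mp (mem_pow.mp h1 _ hb)).2
    refine ⟨succ E n, ins E (op E a n) f, succ_mem_om hn, ⟨mem_pow.mpr (fun p hp => ?_), ?_, ?_⟩,
      ?_, ?_⟩
    · rcases mem_ins.mp hp with rfl | hp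
      · exact op_mem_prod.mpr ⟨mem_ins.mpr (Or.inl rfl), mem_succ.mpr (Or.inl rfl)⟩
      · obtain ⟨c, d, hc, hd, rfl⟩ := mem_prod.mp (mem_pow.mp h1 p hp)
        exact op_mem_prod.mpr ⟨mem_ins.mpr (Or.inr hc), mem_succ.mpr (Or.inr hd)⟩
    · intro c hc
      rcases mem_ins.mp hc with rfl | hc
      · exact ⟨n, mem_ins.mpr (Or.inl rfl)⟩
      · exact (h2 c hc).imp (fun b hb => mem_ins.mpr (Or.inr hb))
    · simp only [mem_ins, op_eq]
      rintro c b b' (⟨rfl, rfl⟩ | e1) (⟨e2, rfl⟩ | e2)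
      · rfl
      · exact absurd e2 (g1 _)
      · exact absurd (e2 ▸ e1) (g1 _)
      · exact h3 c b b' e1 e2
    · simp only [mem_ins, op_eq]
      rintro c c' b (⟨rfl, rfl⟩ | e1) (⟨rfl, e2⟩ | e2)
      · rfl
      · exact absurd e2 (g2 _)
      · exact absurd (e2 ▸ e1) (g2 _)
      · exact h4 c c' b e1 e2
    · intro b hb
      rcases mem_succ.mp hb with rfl | hb
      · exact ⟨a, mem_ins.mpr (Or.inl rfl)⟩
      · exact (h5 b hb).imp (fun c hc => mem_ins.mpr (Or.inr hc))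

end Pool.Agent.P.MP_92320c_lc
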