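import Mathlib
import Pool.Agent.P.MP_92320c_lc.Finite

/-! Amorphous sets inside a model of ZF. -/

namespace Pool.Agent.P.MP_92320c_lc

universe u

variable {M : Type u} {E : M → M → Prop} [hZ : ZF E]

structure Am (E : M → M → Prop) [ZF E] (A : M) : Prop where
  inf : ¬ FinP E (fun x => E x A)
  split : ∀ (P : M → Prop) [Dfn E (fun v => P (v 0))],
    FinP E (fun x => E x A ∧ P x) ∨ FinP E (fun x => E x A ∧ ¬ P x)

theorem Amorphous.am {A : M} (h : Amorphous E A) : Am E A := by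
  refine ⟨fun H => h.1 (isFinite_iff.mpr (H.kf (fun _ h => h))), fun P hP => ?_⟩
  have := hP.one
  by_contra hcon
  rw [not_or] at hcon
  refine h.2 ⟨sp E A P, sp E A (fun x => ¬ P x), fun H => hcon.1 ?_, fun H => hcon.2 ?_,
    fun x hx => (mem_sp.mp hx.2).2 (mem_sp.mp hx.1).2, fun x => ?_⟩
  · exact (isFinite_iff.mp H).finP.mono (fun x hx => mem_sp.mpr hx)
  · exact (isFinite_iff.mp H).finP.mono (fun x hx => mem_sp.mpr hx)
  · rw [mem_sp (E := E), mem_sp (E := E)]; tauto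

variable {A : M}

theorem Am.exists_not (hA : Am E A) {P : M → Prop} (h : FinP E P) : ∃ a, E a A ∧ ¬ P a := by
  by_contra hcon
  exact hA.inf (h.mono (fun x hx => by_contra (fun g => hcon ⟨x, hx, g⟩)))

theorem Am.generic (hA : Am E A) {D : M → Prop} (hD : FinP E D) {r : M → M → Prop}
    [hr : Dfn E (fun v => r (v 0) (v 1))] (h : ∀ a, E a A → ∃ d, D d ∧ r d a) :
    ∃ d, FinP E (fun a => E a A ∧ ¬ r d a) := by
  have := hr.two
  by_contra hcon
  refine hA.inf ((hD.bind (P := fun d a => E a A ∧ r d a) (fun d => (hA.split (r d)).resolve_right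
    (fun g => hcon ⟨d, g⟩))).mono (fun a ha => ?_))
  obtain ⟨d, h1, h2⟩ := h a ha
  exact ⟨d, h1, ha, h2⟩

theorem mono_le {U : M → M → Prop} [hU : Dfn E (fun v => U (v 0) (v 1))]
    (h : ∀ n a, E n (om E) → U n a → U (succ E n) a) {m n a : M} (hn : E n (om E))
    (hmn : Le E m n) (H : U m a) : U n a := by
  have := hU.two
  exact le_ind (P := fun n => U n a) H (fun n hn _ => h n a hn) hn hmn

theorem exists_bound {U : M → M → Prop} [hU : Dfn E (fun v => U (v 0) (v 1))]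
    (h : ∀ n a, E n (om E) → U n a → U (succ E n) a) {B : M → Prop} (hB : FinP E B) :
    ∃ n, E n (om E) ∧ ∀ a m, B a → E m (om E) → U m a → U n a := by
  have := hU.two
  obtain ⟨s, h1, h2⟩ := hB
  obtain ⟨n, hn, H⟩ := h1.ind (P := fun s => ∃ n, E n (om E) ∧
      ∀ a m, E a s → E m (om E) → U m a → U n a)
    ⟨_, emp_mem_om, fun a _ ha => absurd ha (not_mem_emp a)⟩ (by
      rintro t a - - - ⟨n, hn, H⟩
      by_cases e : ∃ k, E k (om E) ∧ U k a
      · obtain ⟨k, hk, e⟩ := e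
        rcases le_total hk hn with g | g
        · refine ⟨n, hn, fun b m hb hm hu => ?_⟩
          rcases mem_ins.mp hb with rfl | hb
          · exact mono_le h hn g e
          · exact H b m hb hm hu
        · refine ⟨k, hk, fun b m hb hm hu => ?_⟩
          rcases mem_ins.mp hb with rfl | hb
          · exact e
          · exact mono_le h hk g (H b m hb hm hu)
      · refine ⟨n, hn, fun b m hb hm hu => ?_⟩
        rcases mem_ins.mp hb with rfl | hb
        · exact absurd ⟨m, hm, hu⟩ e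
        · exact H b m hb hm hu)
  exact ⟨n, hn, fun a m ha => H a m (h2 a ha)⟩

theorem stab_aux {U : M → M → Prop} [hU : Dfn E (fun v => U (v 0) (v 1))]
    (h1 : ∀ n, E n (om E) → FinP E (U n)) (h2 : ∀ n a, E n (om E) → U n a → U (succ E n) a)
    {τ : M → Prop} [hτ : Dfn E (fun v => τ (v 0))]
    (h3 : ∀ n, E n (om E) → (τ (succ E n) ↔
      ((∃ a, E a A ∧ ¬ U n a ∧ U (succ E n) a) ↔ ¬ τ n)))
    (h4 : FinP E (fun a => E a A ∧ ∃ n, E n (om E) ∧ ¬ U n a ∧ U (succ E n) a ∧ τ n)) :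
    FinP E (fun a => E a A ∧ ∃ n, E n (om E) ∧ U n a) := by
  have := hU.two
  have := hτ.one
  obtain ⟨n, hn, H⟩ := exists_bound h2 h4
  have g1 : ∀ m, E m (om E) → Le E n m → τ m → ¬ ∃ a, E a A ∧ ¬ U m a ∧ U (succ E m) a := by
    rintro m hm hl ht ⟨a, e1, e2, e3⟩
    exact e2 (mono_le h2 hm hl (H a _ ⟨e1, m, hm, e2, e3, ht⟩ (succ_mem_om hm) e3))
  have g2 : ∃ k, E k (om E) ∧ ∀ m, E m (om E) → Le E k m →
      ¬ ∃ a, E a A ∧ ¬ U m a ∧ U (succ E m) a := by
    by_cases e : ∃ j, E j (om E) ∧ Le E n j ∧ ∃ a, E a A ∧ ¬ U j a ∧ U (succ E j) a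
    · obtain ⟨j, hj, e1, e2⟩ := e
      refine ⟨_, succ_mem_om hj, fun m hm hl => ?_⟩
      have := le_ind (P := fun m => Le E n m ∧ τ m)
        ⟨le_succ e1, (h3 j hj).mpr (iff_of_true e2 (fun g => g1 j hj e1 g e2))⟩
        (fun m hm _ ih => ⟨le_succ ih.1, (h3 m hm).mpr
          (iff_of_false (g1 m hm ih.1 ih.2) (not_not.mpr ih.2))⟩) hm hl
      exact g1 m hm this.1 this.2
    · exact ⟨n, hn, fun m hm hl g => e ⟨m, hm, hl, g⟩⟩
  obtain ⟨k, hk, g2⟩ := g2
  refine (h1 k hk).mono ?_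
  rintro a ⟨ha, m, hm, e⟩
  rcases le_total hm hk with g | g
  · exact mono_le h2 hk g e
  · exact le_ind (P := fun m => U m a → U k a) id (fun m hm hl ih e => ih (by_contra (fun e' =>
      g2 m hm hl ⟨a, ha, e', e⟩))) hm g e

/-- An increasing sequence of finite subsets of an amorphous set has a finite union. -/
theorem Am.stab (hA : Am E A) {U : M → M → Prop} [hU : Dfn E (fun v => U (v 0) (v 1))]
    (h1 : ∀ n, E n (om E) → FinP E (U n)) (h2 : ∀ n a, E n (om E) → U n a → U (succ E n) a) :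
    FinP E (fun a => E a A ∧ ∃ n, E n (om E) ∧ U n a) := by
  have := hU.two
  obtain ⟨t, ht, -, h3⟩ := exists_seq (succ E (emp E)) (emp E)
    (mem_pow.mpr (fun y hy => absurd hy (not_mem_emp y)))
    (fun n x => sp E (succ E (emp E)) (fun _ =>
      ((∃ a, E a A ∧ ¬ U n a ∧ U (succ E n) a) ↔ ¬ E (emp E) x)))
    (fun n x _ => mem_pow.mpr (fun y hy => (mem_sp.mp hy).1))
  have := ht.one
  have h4 : ∀ n, E n (om E) → (E (emp E) (t (succ E n)) ↔
      ((∃ a, E a A ∧ ¬ U n a ∧ U (succ E n) a) ↔ ¬ E (emp E) (t n))) := fun n hn => by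
    rw [h3 n hn]
    exact mem_sp.trans (and_iff_right (mem_succ.mpr (Or.inl rfl)))
  rcases hA.split (fun a => ∃ n, E n (om E) ∧ ¬ U n a ∧ U (succ E n) a ∧ E (emp E) (t n)) with h | h
  · exact stab_aux h1 h2 (τ := fun n => E (emp E) (t n)) h4 h
  · refine stab_aux h1 h2 (τ := fun n => ¬ E (emp E) (t n))
      (fun n hn => by rw [h4 n hn, not_iff, not_iff_comm]; exact Iff.comm) (h.mono ?_)
    rintro a ⟨ha, n, hn, e1, e2, e3⟩
    refine ⟨ha, ?_⟩
    rintro ⟨m, hm, e4, e5, e6⟩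
    rcases le_total hm hn with g | g
    · rcases succ_le hn g with rfl | g
      · exact e3 e6
      · exact e1 (mono_le h2 hn g e5)
    · rcases succ_le hm g with rfl | g
      · exact e3 e6
      · exact e4 (mono_le h2 hm g e2)

end Pool.Agent.P.MP_92320c_lc
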