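import Mathlib
import Pool.Agent.P.MP_92320c_lc.Amor

/-! A back-and-forth system of finite partial injections of an amorphous set. -/

namespace Pool.Agent.P.MP_92320c_lc

universe u

variable {M : Type u} {E : M → M → Prop} [hZ : ZF E]

/-- `X` is the set of all colourings of `A` by the finite set `C`, and `F` maps `X` to `X`. -/
structure Setup (E : M → M → Prop) [ZF E] where
  A : M
  C : M
  X : M
  col : M → M → M
  F : M → M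
  hA : Am E A
  hC : KF E C
  tcol : Tm E (fun v => col (v 0) (v 1))
  tF : Tm E (fun v => F (v 0))
  col_mem : ∀ x a, E x X → E a A → E (col x a) C
  cext : ∀ x y, E x X → E y X → (∀ a, E a A → col x a = col y a) → x = y
  full : ∀ (r : M → M → Prop) [Dfn E (fun v => r (v 0) (v 1))],
    (∀ a, E a A → ∃ c, E c C ∧ r a c) → (∀ a c c', r a c → r a c' → c = c') →
    ∃ x, E x X ∧ ∀ a, E a A → r a (col x a)
  F_mem : ∀ x, E x X → E (F x) X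

abbrev R (E : M → M → Prop) [ZF E] (g a b : M) : Prop := E (op E a b) g

/-- `r` is contained in a member of `I`. -/
def Ok (E : M → M → Prop) [ZF E] (I : M) (r : M → M → Prop) : Prop :=
  ∃ g, E g I ∧ ∀ a b, r a b → R E g a b

instance Dfn.ok {I : (ℕ → M) → M} [Tm E I] {r : (ℕ → M) → M → M → Prop}
    [h : Dfn E (fun v => r (fun n => v (n + 2)) (v 1) (v 0))] :
    Dfn E (fun v => Ok E (I v) (r v)) := by
  have h3 : Dfn E (fun v => r (fun n => v (n + 3)) (v 1) (v 0)) :=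
    h.ren (cons 0 (cons 1 (fun n => n + 3)))
  unfold Ok; infer_instance

theorem Ok.mono {I : M} {r s : M → M → Prop} (h : Ok E I r) (H : ∀ a b, s a b → r a b) :
    Ok E I s := by
  obtain ⟨g, h1, h2⟩ := h
  exact ⟨g, h1, fun a b e => h2 a b (H a b e)⟩

theorem ok_self {I g : M} (h : E g I) : Ok E I (R E g) := ⟨g, h, fun _ _ h => h⟩

theorem mem_of_R {A B k a b : M} (hk : E k (pow E (prod E A B))) (h : R E k a b) :
    E a A ∧ E b B := op_mem_prod.mp (mem_pow.mp hk _ h)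

theorem kf_of_pp {A B k : M} (hk : E k (pow E (prod E A B)))
    (h1 : FinP E (fun a => ∃ b, R E k a b)) (h2 : FinP E (fun b => ∃ a, R E k a b)) : KF E k :=
  (kf_rel (A := A) (B := B) h1 h2).sub (fun p hp => by
    obtain ⟨a, b, ha, hb, rfl⟩ := mem_prod.mp (mem_pow.mp hk p hp)
    exact op_mem_rel.mpr ⟨ha, hb, hp⟩)

namespace Setup

variable (S : Setup E)

instance {a b : (ℕ → M) → M} [Tm E a] [Tm E b] : Tm E (fun v => S.col (a v) (b v)) :=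
  S.tcol.two a b

instance {a : (ℕ → M) → M} [Tm E a] : Tm E (fun v => S.F (a v)) := S.tF.one a

noncomputable def PP : M := pow E (prod E S.A S.A)

def Carry (r : M → M → Prop) (x y : M) : Prop :=
  (∀ a b, r a b → S.col x a = S.col y b) ∧ ∀ a b, E a S.A → E b S.A → (¬ ∃ b', r a b') →
    (¬ ∃ a', r a' b) → S.col x a = S.col y b

instance {g x y : (ℕ → M) → M} [Tm E g] [Tm E x] [Tm E y] :
    Dfn E (fun v => S.Carry (R E (g v)) (x v) (y v)) := by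
  unfold Carry; infer_instance

theorem Carry.mono {r s : M → M → Prop} {x y : M} (h : S.Carry r x y) (h1 : ∀ a b, r a b → s a b)
    (h2 : ∀ a b a' b', s a b → s a' b' → (a = a' ↔ b = b'))
    (h3 : ∀ a b, s a b → E a S.A ∧ E b S.A) : S.Carry s x y := by
  refine ⟨fun a b hs => ?_, fun a b ha hb g1 g2 => h.2 a b ha hb
    (fun ⟨b', e⟩ => g1 ⟨b', h1 _ _ e⟩) (fun ⟨a', e⟩ => g2 ⟨a', h1 _ _ e⟩)⟩
  by_cases e : r a b
  · exact h.1 a b e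
  · exact h.2 a b (h3 a b hs).1 (h3 a b hs).2
      (fun ⟨b', e'⟩ => e ((h2 _ _ _ _ (h1 _ _ e') hs).mp rfl ▸ e'))
      (fun ⟨a', e'⟩ => e ((h2 _ _ _ _ (h1 _ _ e') hs).mpr rfl ▸ e'))

noncomputable def I0 : M := sp E S.PP (fun g => KF E g ∧
  (∀ a b a' b', R E g a b → R E g a' b' → (a = a' ↔ b = b')) ∧
  ∀ x y, E x S.X → E y S.X → S.Carry (R E g) x y → ∀ a b, R E g a b →
    S.col (S.F x) a = S.col (S.F y) b)

theorem mem_I0 {g : M} : E g S.I0 ↔ E g S.PP ∧ KF E g ∧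
    (∀ a b a' b', R E g a b → R E g a' b' → (a = a' ↔ b = b')) ∧
    ∀ x y, E x S.X → E y S.X → S.Carry (R E g) x y → ∀ a b, R E g a b →
      S.col (S.F x) a = S.col (S.F y) b := mem_sp

def Sys (I : M) : Prop := (∀ g, E g I → E g S.I0) ∧
  (∀ g h k, E g I → E h I → E k S.PP → (∀ a c, R E k a c → ∃ b, R E g b a ∧ R E h b c) → E k I) ∧
  ∀ k, E k S.PP → KF E k → (∀ a b, R E k a b → a = b) → E k I

instance {I : (ℕ → M) → M} [Tm E I] : Dfn E (fun v => S.Sys (I v)) := by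
  unfold Sys; infer_instance

variable {S}

section ok

variable {I : M} (hI : S.Sys I) {r s : M → M → Prop}
include hI

theorem Sys.mem (h : Ok E I r) {a b : M} (e : r a b) : E a S.A ∧ E b S.A := by
  obtain ⟨g, h1, h2⟩ := h
  exact mem_of_R (S.mem_I0.mp (hI.1 g h1)).1 (h2 a b e)

theorem Sys.inj (h : Ok E I r) {a b a' b' : M} (e : r a b) (e' : r a' b') : a = a' ↔ b = b' := by
  obtain ⟨g, h1, h2⟩ := h
  exact (S.mem_I0.mp (hI.1 g h1)).2.2.1 _ _ _ _ (h2 _ _ e) (h2 _ _ e')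

theorem Sys.dom (h : Ok E I r) : FinP E (fun a => ∃ b, r a b) := by
  obtain ⟨g, h1, h2⟩ := h
  exact (S.mem_I0.mp (hI.1 g h1)).2.1.dom.mono (fun a ⟨b, e⟩ => ⟨b, h2 a b e⟩)

theorem Sys.ran (h : Ok E I r) : FinP E (fun b => ∃ a, r a b) := by
  obtain ⟨g, h1, h2⟩ := h
  exact (S.mem_I0.mp (hI.1 g h1)).2.1.ran.mono (fun b ⟨a, e⟩ => ⟨a, h2 a b e⟩)

theorem Sys.div (h1 : Ok E I r) (h2 : Ok E I s) : Ok E I (fun a c => ∃ b, r b a ∧ s b c) := by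
  obtain ⟨g, g1, g2⟩ := h1
  obtain ⟨h, g3, g4⟩ := h2
  refine ⟨rel E S.A S.A (fun a c => ∃ b, R E g b a ∧ R E h b c), hI.2.1 g h _ g1 g3 rel_mem_pow
    (fun a c e => (op_mem_rel.mp e).2.2), ?_⟩
  rintro a c ⟨b, e1, e2⟩
  exact op_mem_rel.mpr ⟨(hI.mem (ok_self g1) (g2 _ _ e1)).2, (hI.mem (ok_self g3) (g4 _ _ e2)).2,
    b, g2 _ _ e1, g4 _ _ e2⟩

theorem Sys.id {P : M → Prop} (h : FinP E P) : Ok E I (fun a b => E a S.A ∧ P a ∧ a = b) := by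
  obtain ⟨t, h1, h2⟩ := h
  refine ⟨rel E S.A S.A (fun a b => E a t ∧ a = b), hI.2.2 _ rel_mem_pow (kf_rel
    (h1.finP.mono (fun a ⟨b, e⟩ => e.1)) (h1.finP.mono (fun a ⟨b, e⟩ => e.2 ▸ e.1)))
    (fun a b e => (op_mem_rel.mp e).2.2.2), ?_⟩
  rintro a _ ⟨e1, e2, rfl⟩
  exact op_mem_rel.mpr ⟨e1, e1, h2 a e2, rfl⟩

theorem Sys.symm (h : Ok E I r) : Ok E I (fun a b => r b a) :=
  (hI.div h (hI.id (hI.dom h))).mono (fun _ b e => ⟨b, e, (hI.mem h e).1, ⟨_, e⟩, rfl⟩)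

theorem Sys.comp (h1 : Ok E I r) (h2 : Ok E I s) : Ok E I (fun a c => ∃ b, r a b ∧ s b c) :=
  hI.div (hI.symm h1) h2

theorem Sys.of_ok {k : M} (hk : E k S.PP) (h : Ok E I (R E k)) : E k I := by
  obtain ⟨g, g1, g2⟩ := h
  obtain ⟨e, e1, e2⟩ := hI.id (hI.dom (ok_self g1))
  exact hI.2.1 e g k e1 g1 hk (fun a c h =>
    ⟨a, e2 a a ⟨(mem_of_R hk h).1, ⟨c, g2 _ _ h⟩, rfl⟩, g2 _ _ h⟩)

theorem Sys.compat (h : Ok E I r) {x y : M} (hx : E x S.X) (hy : E y S.X) (H : S.Carry r x y)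
    {a b : M} (e : r a b) : S.col (S.F x) a = S.col (S.F y) b := by
  obtain ⟨g, g1, g2⟩ := h
  exact (S.mem_I0.mp (hI.1 g g1)).2.2.2 x y hx hy (H.mono S g2
    (fun _ _ _ _ => hI.inj (ok_self g1)) (fun _ _ => hI.mem (ok_self g1))) a b (g2 a b e)

end ok

theorem sys_I0 : S.Sys S.I0 := by
  refine ⟨fun _ h => h, fun g h k hg hh hk H => ?_, fun k hk h1 h2 => S.mem_I0.mpr ⟨hk, h1,
    fun a b a' b' e e' => by rw [h2 a b e, h2 a' b' e'], fun x y hx hy H a b e => ?_⟩⟩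
  swap
  · have : x = y := S.cext x y hx hy (fun c hc => by
      by_cases g : R E k c c
      · exact H.1 c c g
      · exact H.2 c c hc hc (fun ⟨b', e'⟩ => g (h2 _ _ e' ▸ e' : R E k c c))
          (fun ⟨b', e'⟩ => g (h2 _ _ e' ▸ e' : R E k c c)))
    rw [this, h2 a b e]
  obtain ⟨g1, g2, g3, g4⟩ := S.mem_I0.mp hg
  obtain ⟨h1, h2, h3, h4⟩ := S.mem_I0.mp hh
  have inj : ∀ a c a' c', (∃ b, R E g b a ∧ R E h b c) → (∃ b, R E g b a' ∧ R E h b c') →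
      (a = a' ↔ c = c') := fun a c a' c' ⟨b, e1, e2⟩ ⟨b', e3, e4⟩ =>
    (g3 _ _ _ _ e1 e3).symm.trans (h3 _ _ _ _ e2 e4)
  refine S.mem_I0.mpr ⟨hk, kf_of_pp hk (g2.ran.mono (fun a ⟨c, e⟩ => (H a c e).imp (fun _ e => e.1)))
    (h2.ran.mono (fun c ⟨a, e⟩ => (H a c e).imp (fun _ e => e.2))),
    fun a c a' c' e e' => inj _ _ _ _ (H _ _ e) (H _ _ e'), fun x z hx hz Hc a c e => ?_⟩
  replace Hc := Hc.mono S H inj (fun a c ⟨b, e1, e2⟩ => ⟨(mem_of_R g1 e1).2, (mem_of_R h1 e2).2⟩)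
  obtain ⟨a0, ha0, n1⟩ := S.hA.exists_not g2.ran
  obtain ⟨c0, hc0, n2⟩ := S.hA.exists_not h2.ran
  have k2 : ∀ c, E c S.A → (¬ ∃ a b, R E g b a ∧ R E h b c) → S.col x a0 = S.col z c :=
    fun c hc n => Hc.2 a0 c ha0 hc (fun ⟨_, b, e, _⟩ => n1 ⟨b, e⟩) n
  have k1 : ∀ a, E a S.A → (¬ ∃ c b, R E g b a ∧ R E h b c) → S.col x a = S.col x a0 :=
    fun a ha n => (Hc.2 a c0 ha hc0 n (fun ⟨_, b, _, e⟩ => n2 ⟨b, e⟩)).trans
      (k2 c0 hc0 (fun ⟨_, b, _, e⟩ => n2 ⟨b, e⟩)).symm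
  obtain ⟨y, hy, Hy⟩ := S.full (fun b κ => (∃ a, R E g b a ∧ κ = S.col x a) ∨
      ((¬ ∃ a, R E g b a) ∧ κ = S.col x a0)) (fun b hb => by
    by_cases e : ∃ a, R E g b a
    · obtain ⟨a, e⟩ := e
      exact ⟨_, S.col_mem x a hx (mem_of_R g1 e).2, Or.inl ⟨a, e, rfl⟩⟩
    · exact ⟨_, S.col_mem x a0 hx ha0, Or.inr ⟨e, rfl⟩⟩) (by
    rintro b _ _ (⟨a, e, rfl⟩ | ⟨e, rfl⟩) (⟨a', e', rfl⟩ | ⟨e', rfl⟩)
    · rw [(g3 _ _ _ _ e e').mp rfl]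
    · exact absurd ⟨a, e⟩ e'
    · exact absurd ⟨a', e'⟩ e
    · rfl)
  have y1 : ∀ b a, R E g b a → S.col y b = S.col x a := fun b a e => by
    rcases Hy b (mem_of_R g1 e).1 with ⟨a', e', e''⟩ | ⟨e', -⟩
    · rw [e'', (g3 _ _ _ _ e e').mp rfl]
    · exact absurd ⟨a, e⟩ e'
  have y2 : ∀ b, E b S.A → (¬ ∃ a, R E g b a) → S.col y b = S.col x a0 := fun b hb e =>
    ((Hy b hb).resolve_left (fun ⟨a, e', _⟩ => e ⟨a, e'⟩)).2
  obtain ⟨b, e1, e2⟩ := H a c e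
  refine (g4 y x hy hx ⟨y1, fun b a hb ha m1 m2 => (y2 b hb m1).trans
    (k1 a ha (fun ⟨_, b, e, _⟩ => m2 ⟨b, e⟩)).symm⟩ b a e1).symm.trans
    (h4 y z hy hz ⟨fun b c e => ?_, fun b c hb hc m1 m2 => ?_⟩ b c e2)
  · by_cases m : ∃ a, R E g b a
    · obtain ⟨a, m⟩ := m
      exact (y1 b a m).trans (Hc.1 a c ⟨b, m, e⟩)
    · exact (y2 b (mem_of_R h1 e).1 m).trans (k2 c (mem_of_R h1 e).2
        (fun ⟨a, b', m1, m2⟩ => m ⟨a, (h3 _ _ _ _ m2 e).mpr rfl ▸ m1⟩))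
  · refine Eq.trans ?_ (k2 c hc (fun ⟨_, b, _, e⟩ => m2 ⟨b, e⟩))
    by_cases m : ∃ a, R E g b a
    · obtain ⟨a, m⟩ := m
      exact (y1 b a m).trans (k1 a (mem_of_R g1 m).2
        (fun ⟨c, b', m3, m4⟩ => m1 ⟨c, (g3 _ _ _ _ m3 m).mpr rfl ▸ m4⟩))
    · exact y2 b hb m

variable (S) in
noncomputable def T (I : M) : M := sp E S.I0 (fun g => ∀ c, E c S.A →
  (∃ d, Ok E I (fun a b => R E g a b ∨ (a = c ∧ b = d))) ∧
  ∃ d, Ok E I (fun a b => R E g a b ∨ (a = d ∧ b = c)))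

instance {I : (ℕ → M) → M} [Tm E I] : Tm E (fun v => S.T (I v)) := by
  unfold T; infer_instance

theorem mem_T {I g : M} : E g (S.T I) ↔ E g S.I0 ∧ ∀ c, E c S.A →
    (∃ d, Ok E I (fun a b => R E g a b ∨ (a = c ∧ b = d))) ∧
    ∃ d, Ok E I (fun a b => R E g a b ∨ (a = d ∧ b = c)) := mem_sp

theorem Sys.T {I : M} (hI : S.Sys I) : S.Sys (S.T I) := by
  refine ⟨fun g hg => (mem_T.mp hg).1, fun g h k hg hh hk H => ?_, fun k hk h1 h2 =>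
    mem_T.mpr ⟨sys_I0.2.2 k hk h1 h2, fun c hc => ?_⟩⟩
  · obtain ⟨g1, g2⟩ := mem_T.mp hg
    obtain ⟨h1, h2⟩ := mem_T.mp hh
    refine mem_T.mpr ⟨sys_I0.2.1 g h k g1 h1 hk H, fun c hc => ⟨?_, ?_⟩⟩
    · obtain ⟨d, hd⟩ := (g2 c hc).2
      obtain ⟨e, he⟩ := (h2 d (hI.mem hd (Or.inr ⟨rfl, rfl⟩)).1).1
      refine ⟨e, (hI.div hd he).mono ?_⟩
      rintro a b (m | ⟨rfl, rfl⟩)
      · exact (H a b m).imp (fun _ m => ⟨Or.inl m.1, Or.inl m.2⟩)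
      · exact ⟨d, Or.inr ⟨rfl, rfl⟩, Or.inr ⟨rfl, rfl⟩⟩
    · obtain ⟨d, hd⟩ := (h2 c hc).2
      obtain ⟨e, he⟩ := (g2 d (hI.mem hd (Or.inr ⟨rfl, rfl⟩)).1).1
      refine ⟨e, (hI.div he hd).mono ?_⟩
      rintro a b (m | ⟨rfl, rfl⟩)
      · exact (H a b m).imp (fun _ m => ⟨Or.inl m.1, Or.inl m.2⟩)
      · exact ⟨d, Or.inr ⟨rfl, rfl⟩, Or.inr ⟨rfl, rfl⟩⟩
  · have : Ok E I (fun a b => R E k a b ∨ (a = c ∧ b = c)) :=
      (hI.id (h1.dom.or (finP_eq c))).mono (by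
        rintro a b (m | ⟨rfl, rfl⟩)
        · exact ⟨(mem_of_R hk m).1, Or.inl ⟨b, m⟩, h2 a b m⟩
        · exact ⟨hc, Or.inr rfl, rfl⟩)
    exact ⟨⟨c, this⟩, c, this⟩

theorem Sys.T_sub {I g : M} (hI : S.Sys I) (hg : E g (S.T I)) : E g I := by
  obtain ⟨c, hc, -⟩ := S.hA.exists_not finP_false
  obtain ⟨d, hd⟩ := ((mem_T.mp hg).2 c hc).1
  exact hI.of_ok (S.mem_I0.mp (mem_T.mp hg).1).1 (hd.mono (fun _ _ => Or.inl))

end Setup

end Pool.Agent.P.MP_92320c_lc
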