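import Mathlib
import Pool.Agent.P.MP_92320c_lc.EF

/-! Finitely many types at each level, and the limit system. -/

namespace Pool.Agent.P.MP_92320c_lc

universe u

variable {M : Type u} {E : M → M → Prop} [hZ : ZF E]

/-- `W` is covered by finitely many sets on which `Q` holds. -/
def FI (E : M → M → Prop) [ZF E] (W : M) (Q : M → M → Prop) : Prop :=
  ∃ Y, KF E Y ∧ (∀ g, E g W → ∃ y, E y Y ∧ E g y) ∧
    ∀ y g g', E y Y → E g y → E g' y → E g W → E g' W → Q g g'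

instance Dfn.fi {W : (ℕ → M) → M} [Tm E W] {Q : (ℕ → M) → M → M → Prop}
    [h : Dfn E (fun v => Q (fun n => v (n + 2)) (v 1) (v 0))] :
    Dfn E (fun v => FI E (W v) (Q v)) := by
  have h3 : Dfn E (fun v => Q (fun n => v (n + 4)) (v 1) (v 0)) :=
    h.ren (cons 0 (cons 1 (fun n => n + 4)))
  unfold FI; infer_instance

variable {W : M}

theorem FI.mono {Q Q' : M → M → Prop} (h : FI E W Q)
    (H : ∀ g g', E g W → E g' W → Q g g' → Q' g g') : FI E W Q' := by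
  obtain ⟨Y, h1, h2, h3⟩ := h
  exact ⟨Y, h1, h2, fun y g g' a b c d e => H g g' d e (h3 y g g' a b c d e)⟩

theorem fi_iff (P : M → Prop) [hP : Dfn E (fun v => P (v 0))] :
    FI E W (fun g g' => P g ↔ P g') := by
  have := hP.one
  refine ⟨ins E (sp E W P) (ins E (sp E W (fun g => ¬ P g)) (emp E)), (kf_emp.ins _).ins _,
    fun g hg => ?_, fun y g g' hy h1 h2 _ _ => ?_⟩
  · by_cases h : P g
    · exact ⟨_, mem_ins.mpr (Or.inl rfl), mem_sp.mpr ⟨hg, h⟩⟩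
    · exact ⟨_, mem_ins.mpr (Or.inr (mem_ins.mpr (Or.inl rfl))), mem_sp.mpr ⟨hg, h⟩⟩
  · rcases mem_ins.mp hy with rfl | hy
    · exact iff_of_true (mem_sp.mp h1).2 (mem_sp.mp h2).2
    · rcases mem_ins.mp hy with rfl | hy
      · exact iff_of_false (mem_sp.mp h1).2 (mem_sp.mp h2).2
      · exact absurd hy (not_mem_emp y)

theorem FI.and {Q Q' : M → M → Prop} (h : FI E W Q) (h' : FI E W Q') :
    FI E W (fun g g' => Q g g' ∧ Q' g g') := by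
  obtain ⟨Y, h1, h2, h3⟩ := h
  obtain ⟨Z, g1, g2, g3⟩ := h'
  refine ⟨sp E (pow E W) (fun t => ∃ y, E y Y ∧ ∃ z, E z Z ∧ t = sp E W (fun g => E g y ∧ E g z)),
    (h1.finP.bind (P := fun y t => ∃ z, E z Z ∧ t = sp E W (fun g => E g y ∧ E g z)) (fun y =>
      g1.finP.bind (P := fun z t => t = sp E W (fun g => E g y ∧ E g z)) (fun _ => finP_eq _))).kf
      (fun t ht => (mem_sp.mp ht).2), fun g hg => ?_, fun t g g' ht e1 e2 e3 e4 => ?_⟩
  · obtain ⟨y, y1, y2⟩ := h2 g hg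
    obtain ⟨z, z1, z2⟩ := g2 g hg
    exact ⟨sp E W (fun g => E g y ∧ E g z), mem_sp.mpr ⟨mem_pow.mpr (fun x hx => (mem_sp.mp hx).1),
      y, y1, z, z1, rfl⟩, mem_sp.mpr ⟨hg, y2, z2⟩⟩
  · obtain ⟨-, y, y1, z, z1, rfl⟩ := mem_sp.mp ht
    exact ⟨h3 y g g' y1 (mem_sp.mp e1).2.1 (mem_sp.mp e2).2.1 e3 e4,
      g3 z g g' z1 (mem_sp.mp e1).2.2 (mem_sp.mp e2).2.2 e3 e4⟩

theorem fi_all {D : M} (hD : KF E D) {Q : M → M → M → Prop}
    [hQ : Dfn E (fun v => Q (v 0) (v 1) (v 2))] (H : ∀ d, FI E W (Q d)) :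
    FI E W (fun g g' => ∀ d, E d D → Q d g g') := by
  have := hQ.three
  refine hD.ind (P := fun D => FI E W (fun g g' => ∀ d, E d D → Q d g g'))
    ((fi_iff (fun _ => True)).mono (fun _ _ _ _ _ d hd => absurd hd (not_mem_emp d))) ?_
  intro t a _ _ _ ih
  refine ((H a).and ih).mono (fun g g' _ _ h d hd => ?_)
  rcases mem_ins.mp hd with rfl | hd
  · exact h.1
  · exact h.2 d hd

namespace Setup

variable {S : Setup E}

variable (S) in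
/-- The functions from `D` to `A`. -/
noncomputable def Tup (D : M) : M := sp E (pow E (prod E D S.A)) (fun g =>
  (∀ p, E p D → ∃ a, R E g p a) ∧ ∀ p a a', R E g p a → R E g p a' → a = a')

instance {D : (ℕ → M) → M} [Tm E D] : Tm E (fun v => S.Tup (D v)) := by
  unfold Tup; infer_instance

theorem mem_Tup {D g : M} : E g (S.Tup D) ↔ E g (pow E (prod E D S.A)) ∧
    (∀ p, E p D → ∃ a, R E g p a) ∧ ∀ p a a', R E g p a → R E g p a' → a = a' := mem_sp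

theorem tup_ins {D g c : M} (hg : E g (S.Tup D)) (hc : E c S.A) :
    E (ins E (op E D c) g) (S.Tup (ins E D D)) := by
  obtain ⟨h1, h2, h3⟩ := mem_Tup.mp hg
  have n : ∀ a, ¬ R E g D a := fun a e => mem_irrefl D (mem_of_R h1 e).1
  refine mem_Tup.mpr ⟨mem_pow.mpr (fun p hp => ?_), fun p hp => ?_, ?_⟩
  · rcases mem_ins.mp hp with rfl | hp
    · exact op_mem_prod.mpr ⟨mem_ins.mpr (Or.inl rfl), hc⟩
    · obtain ⟨a, b, ha, hb, rfl⟩ := mem_prod.mp (mem_pow.mp h1 p hp)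
      exact op_mem_prod.mpr ⟨mem_ins.mpr (Or.inr ha), hb⟩
  · rcases mem_ins.mp hp with rfl | hp
    · exact ⟨c, mem_ins.mpr (Or.inl rfl)⟩
    · exact (h2 p hp).imp (fun a e => mem_ins.mpr (Or.inr e))
  · simp only [R, mem_ins, op_eq]
    rintro p a a' (⟨rfl, rfl⟩ | e1) (⟨e2, rfl⟩ | e2)
    · rfl
    · exact absurd e2 (n _)
    · exact absurd (e2 ▸ e1) (n _)
    · exact h3 p a a' e1 e2

theorem tup_ran {D g : M} (hD : KF E D) (hg : E g (S.Tup D)) : FinP E (fun a => ∃ p, R E g p a) :=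
  (hD.finP.bind (P := fun p a => R E g p a) (fun p => finP_sub ((mem_Tup.mp hg).2.2 p))).mono
    (fun _ ⟨p, e⟩ => ⟨p, (mem_of_R (mem_Tup.mp hg).1 e).1, e⟩)

variable (S) in
def Lev (I : M) : Prop := ∀ D, KF E D →
  FI E (S.Tup D) (fun g g' => Ok E I (fun a b => ∃ p, R E g p a ∧ R E g' p b))

instance {I : (ℕ → M) → M} [Tm E I] : Dfn E (fun v => S.Lev (I v)) := by
  unfold Lev; infer_instance

variable (S) in
def AT (y γ p c g : M) : Prop := ∃ x, E x S.X ∧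
  (∀ q b κ, R E g q b → E κ S.C → (R E y q κ ↔ κ = S.col x b)) ∧
  (∀ b, E b S.A → (¬ ∃ q, R E g q b) → S.col x b = γ) ∧ ∀ b, R E g p b → S.col (S.F x) b = c

instance {y γ p c g : (ℕ → M) → M} [Tm E y] [Tm E γ] [Tm E p] [Tm E c] [Tm E g] :
    Dfn E (fun v => S.AT (y v) (γ v) (p v) (c v) (g v)) := by
  unfold AT; infer_instance

theorem lev_I0 : S.Lev S.I0 := by
  intro D hD
  have h1 : FI E (S.Tup D) (fun g g' => ∀ p, E p D → ∀ q, E q D →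
      ((∃ a, R E g p a ∧ R E g q a) ↔ ∃ a, R E g' p a ∧ R E g' q a)) :=
    fi_all hD (fun p => fi_all hD (fun q => fi_iff (fun g => ∃ a, R E g p a ∧ R E g q a)))
  have h2 : FI E (S.Tup D) (fun g g' => ∀ y, E y (pow E (prod E D S.C)) → ∀ γ, E γ S.C →
      ∀ p, E p D → ∀ c, E c S.C → (S.AT y γ p c g ↔ S.AT y γ p c g')) :=
    fi_all (hD.prod S.hC).pow (fun y => fi_all S.hC (fun γ => fi_all hD (fun p => fi_all S.hC
      (fun c => fi_iff (fun g => S.AT y γ p c g)))))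
  refine (h1.and h2).mono ?_
  rintro g g' hg hg' ⟨q1, q2⟩
  obtain ⟨g1, g2, g3⟩ := mem_Tup.mp hg
  obtain ⟨g4, g5, g6⟩ := mem_Tup.mp hg'
  have hk : ∀ a b, R E (rel E S.A S.A (fun a b => ∃ p, R E g p a ∧ R E g' p b)) a b ↔
      ∃ p, R E g p a ∧ R E g' p b := fun a b => op_mem_rel.trans
    ⟨fun h => h.2.2, fun ⟨p, e1, e2⟩ => ⟨(mem_of_R g1 e1).2, (mem_of_R g4 e2).2, p, e1, e2⟩⟩
  refine ⟨rel E S.A S.A (fun a b => ∃ p, R E g p a ∧ R E g' p b), S.mem_I0.mpr ⟨rel_mem_pow, kf_rel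
    ((tup_ran hD hg).mono (fun _ ⟨_, p, e, _⟩ => ⟨p, e⟩))
    ((tup_ran hD hg').mono (fun _ ⟨_, p, _, e⟩ => ⟨p, e⟩)), fun a b a' b' e e' => ?_,
    fun x z hx hz H a b e => ?_⟩, fun a b => (hk a b).mpr⟩
  · obtain ⟨p, e1, e2⟩ := (hk _ _).mp e
    obtain ⟨q, e3, e4⟩ := (hk _ _).mp e'
    have := q1 p (mem_of_R g1 e1).1 q (mem_of_R g1 e3).1
    constructor
    · rintro rfl
      obtain ⟨c, m1, m2⟩ := this.mp ⟨a, e1, e3⟩
      rw [g6 _ _ _ e2 m1, g6 _ _ _ e4 m2]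
    · rintro rfl
      obtain ⟨c, m1, m2⟩ := this.mpr ⟨b, e2, e4⟩
      rw [g3 _ _ _ e1 m1, g3 _ _ _ e3 m2]
  obtain ⟨p, e1, e2⟩ := (hk _ _).mp e
  obtain ⟨a0, ha0, n1⟩ := S.hA.exists_not (tup_ran hD hg)
  obtain ⟨b0, hb0, n2⟩ := S.hA.exists_not (tup_ran hD hg')
  have k0 : ∀ a b, E a S.A → E b S.A → (¬ ∃ p, R E g p a) → (¬ ∃ p, R E g' p b) →
      S.col x a = S.col z b := fun a b ha hb m1 m2 => H.2 a b ha hb
    (fun ⟨_, e⟩ => m1 (((hk _ _).mp e).imp (fun _ e => e.1)))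
    (fun ⟨_, e⟩ => m2 (((hk _ _).mp e).imp (fun _ e => e.2)))
  have hy : ∀ q b κ, R E g q b → E κ S.C →
      (R E (rel E D S.C (fun q κ => ∃ b, R E g q b ∧ κ = S.col x b)) q κ ↔ κ = S.col x b) :=
    fun q b κ m hκ => op_mem_rel.trans ⟨fun ⟨_, _, b', m1, m2⟩ => g3 _ _ _ m1 m ▸ m2,
      fun m1 => ⟨(mem_of_R g1 m).1, hκ, b, m, m1⟩⟩
  obtain ⟨z', z1, z2, z3, z4⟩ := (q2 _ rel_mem_pow _ (S.col_mem x a0 hx ha0) p (mem_of_R g1 e1).1 _
    (S.col_mem _ a (S.F_mem x hx) (mem_of_R g1 e1).2)).mp ⟨x, hx, hy,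
      fun c hc m => (k0 c b0 hc hb0 m n2).trans (k0 a0 b0 ha0 hb0 n1 n2).symm,
      fun c m => by rw [g3 _ _ _ m e1]⟩
  have : z' = z := S.cext z' z z1 hz (fun c hc => by
    by_cases m : ∃ q, R E g' q c
    · obtain ⟨q, m⟩ := m
      obtain ⟨d, m'⟩ := g2 q (mem_of_R g4 m).1
      have hκ := S.col_mem x d hx (mem_of_R g1 m').2
      exact ((z2 q c _ m hκ).mp ((hy q d _ m' hκ).mpr rfl)).symm.trans
        (H.1 d c ((hk _ _).mpr ⟨q, m', m⟩))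
    · exact (z3 c hc m).trans (k0 a0 c ha0 hc n1 m))
  exact (this ▸ z4 b e2).symm

theorem Lev.T {I : M} (h : S.Lev I) : S.Lev (S.T I) := by
  intro D hD
  obtain ⟨Y, h1, h2, h3⟩ := h (ins E D D) (hD.ins D)
  refine ((lev_I0 D hD).and (fi_all h1 (fun y => fi_iff
    (fun g => ∃ c, E c S.A ∧ E (ins E (op E D c) g) y)))).mono ?_
  rintro g g' hg hg' ⟨q1, q2⟩
  have hk : ∀ a b, R E (rel E S.A S.A (fun a b => ∃ p, R E g p a ∧ R E g' p b)) a b →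
      ∃ p, R E g p a ∧ R E g' p b := fun a b h => (op_mem_rel.mp h).2.2
  have key : ∀ y c d, E y Y → E c S.A → E d S.A → E (ins E (op E D c) g) y →
      E (ins E (op E D d) g') y → Ok E I (fun a b =>
        R E (rel E S.A S.A (fun a b => ∃ p, R E g p a ∧ R E g' p b)) a b ∨ (a = c ∧ b = d)) := by
    intro y c d hy hc hd e1 e2
    refine (h3 y _ _ hy e1 e2 (tup_ins hg hc) (tup_ins hg' hd)).mono ?_
    rintro a b (m | ⟨rfl, rfl⟩)
    · exact (hk a b m).imp (fun p m => ⟨mem_ins.mpr (Or.inr m.1), mem_ins.mpr (Or.inr m.2)⟩)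
    · exact ⟨D, mem_ins.mpr (Or.inl rfl), mem_ins.mpr (Or.inl rfl)⟩
  refine ⟨rel E S.A S.A (fun a b => ∃ p, R E g p a ∧ R E g' p b), mem_T.mpr
    ⟨sys_I0.of_ok rel_mem_pow (q1.mono hk), fun c hc => ⟨?_, ?_⟩⟩, fun a b e =>
      op_mem_rel.mpr ⟨(sys_I0.mem q1 e).1, (sys_I0.mem q1 e).2, e⟩⟩
  · obtain ⟨y, y1, y2⟩ := h2 _ (tup_ins hg hc)
    obtain ⟨d, d1, d2⟩ := (q2 y y1).mp ⟨c, hc, y2⟩
    exact ⟨d, key y c d y1 hc d1 y2 d2⟩
  · obtain ⟨y, y1, y2⟩ := h2 _ (tup_ins hg' hc)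
    obtain ⟨d, d1, d2⟩ := (q2 y y1).mpr ⟨c, hc, y2⟩
    exact ⟨d, key y d c y1 d1 hc d2 y2⟩

theorem Lev.gen {I D : M} (h : S.Lev I) (hD : KF E D) (hDA : ∀ a, E a D → E a S.A) :
    ∃ s : M → Prop, FinP E s ∧ ∀ c d, E c S.A → E d S.A → ¬ s c → ¬ s d →
      Ok E I (fun a b => (E a D ∧ a = b) ∨ (a = c ∧ b = d)) := by
  obtain ⟨Y, h1, h2, h3⟩ := h (ins E D D) (hD.ins D)
  have hg : E (rel E D S.A (fun a b => a = b)) (S.Tup D) := mem_Tup.mpr ⟨rel_mem_pow,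
    fun p hp => ⟨p, op_mem_rel.mpr ⟨hp, hDA p hp, rfl⟩⟩,
    fun p a a' e e' => (op_mem_rel.mp e).2.2.symm.trans (op_mem_rel.mp e').2.2⟩
  obtain ⟨y, hy⟩ := S.hA.generic h1.finP
    (r := fun y c => E y Y ∧ E (ins E (op E D c) (rel E D S.A (fun a b => a = b))) y)
    (fun c hc => (h2 _ (tup_ins hg hc)).imp (fun y e => ⟨e.1, e⟩))
  refine ⟨_, hy, fun c d hc hd e1 e2 => ?_⟩
  have e3 := not_not.mp (not_and.mp e1 hc)
  have e4 := not_not.mp (not_and.mp e2 hd)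
  refine (h3 y _ _ e3.1 e3.2 e4.2 (tup_ins hg hc) (tup_ins hg hd)).mono ?_
  rintro a b (⟨m, rfl⟩ | ⟨rfl, rfl⟩)
  · exact ⟨a, mem_ins.mpr (Or.inr (op_mem_rel.mpr ⟨m, hDA a m, rfl⟩)),
      mem_ins.mpr (Or.inr (op_mem_rel.mpr ⟨m, hDA a m, rfl⟩))⟩
  · exact ⟨D, mem_ins.mpr (Or.inl rfl), mem_ins.mpr (Or.inl rfl)⟩

variable (S) in
/-- A homogeneous back-and-forth system. -/
structure Good (I : M) : Prop where
  sys : S.Sys I
  forth : ∀ r c, Ok E I r → E c S.A → ∃ d, Ok E I (fun a b => r a b ∨ (a = c ∧ b = d))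
  gen : ∀ P : M → Prop, FinP E P → ∃ s : M → Prop, FinP E s ∧ ∀ c d, E c S.A → E d S.A → ¬ s c →
    ¬ s d → Ok E I (fun a b => (E a S.A ∧ P a ∧ a = b) ∨ (a = c ∧ b = d))

theorem exists_good : ∃ I, S.Good I := by
  obtain ⟨J, hJ, J0, J1⟩ := exists_seq (E := E) S.I0 S.I0 (mem_pow.mpr (fun _ h => h)) (fun _ I => S.T I)
    (fun _ _ _ => mem_pow.mpr (fun g hg => (mem_T.mp hg).1))
  have := hJ.one
  have sys : ∀ n, E n (om E) → S.Sys (J n) ∧ S.Lev (J n) := fun n hn =>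
    om_ind (P := fun n => S.Sys (J n) ∧ S.Lev (J n)) (by rw [J0]; exact ⟨sys_I0, lev_I0⟩)
      (fun n hn ih => by rw [J1 n hn]; exact ⟨ih.1.T, ih.2.T⟩) hn
  have dec : ∀ n r, E n (om E) → Ok E (J (succ E n)) r → Ok E (J n) r := by
    rintro n r hn ⟨g, h1, h2⟩
    rw [J1 n hn] at h1
    exact ⟨g, (sys n hn).1.T_sub h1, h2⟩
  have lim : ∀ (r : M → M → Prop) [Dfn E (fun v => r (v 0) (v 1))],
      (∀ n, E n (om E) → Ok E (J n) r) →
      Ok E (sp E S.I0 (fun g => ∀ n, E n (om E) → E g (J n))) r := by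
    intro r _ H
    have : ∀ n, E n (om E) → E (rel E S.A S.A r) (J n) := fun n hn =>
      (sys n hn).1.of_ok rel_mem_pow ((H n hn).mono (fun a b e => (op_mem_rel.mp e).2.2))
    exact ⟨rel E S.A S.A r, mem_sp.mpr ⟨J0 ▸ this _ emp_mem_om, this⟩, fun a b e => op_mem_rel.mpr
      ⟨((sys _ emp_mem_om).1.mem (H _ emp_mem_om) e).1,
        ((sys _ emp_mem_om).1.mem (H _ emp_mem_om) e).2, e⟩⟩
  refine ⟨sp E S.I0 (fun g => ∀ n, E n (om E) → E g (J n)), ⟨fun g hg => (mem_sp.mp hg).1,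
    fun g h k hg hh hk H => mem_sp.mpr ⟨sys_I0.2.1 g h k (mem_sp.mp hg).1 (mem_sp.mp hh).1 hk H,
      fun n hn => (sys n hn).1.2.1 g h k ((mem_sp.mp hg).2 n hn) ((mem_sp.mp hh).2 n hn) hk H⟩,
    fun k hk h1 h2 => mem_sp.mpr ⟨sys_I0.2.2 k hk h1 h2, fun n hn => (sys n hn).1.2.2 k hk h1 h2⟩⟩,
    ?_, ?_⟩
  · rintro r c ⟨g, g1, g2⟩ hc
    have ne : ∀ n, E n (om E) → ∃ d, Ok E (J n) (fun a b => R E g a b ∨ (a = c ∧ b = d)) :=
      fun n hn => ((mem_T.mp (J1 n hn ▸ (mem_sp.mp g1).2 _ (succ_mem_om hn))).2 c hc).1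
    have : ∃ d, ∀ n, E n (om E) → Ok E (J n) (fun a b => R E g a b ∨ (a = c ∧ b = d)) := by
      by_contra hcon
      have hcon' : ∀ d, ∃ n, E n (om E) ∧ ¬ Ok E (J n) (fun a b => R E g a b ∨ (a = c ∧ b = d)) :=
        fun d => by_contra (fun e => hcon ⟨d, fun n hn => by_contra (fun e' => e ⟨n, hn, e'⟩)⟩)
      by_cases H : ∃ n, E n (om E) ∧
        FinP E (fun d => E d S.A ∧ Ok E (J n) (fun a b => R E g a b ∨ (a = c ∧ b = d)))
      · obtain ⟨n, hn, H⟩ := H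
        obtain ⟨m, hm, H'⟩ := exists_bound
          (U := fun n d => ¬ Ok E (J n) (fun a b => R E g a b ∨ (a = c ∧ b = d)))
          (fun n d hn e e' => e (dec n _ hn e')) H
        rcases le_total hm hn with l | l
        · obtain ⟨d, hd⟩ := ne n hn
          obtain ⟨k, hk, e⟩ := hcon' d
          exact mono_le (U := fun n d => ¬ Ok E (J n) (fun a b => R E g a b ∨ (a = c ∧ b = d)))
            (fun n d hn e e' => e (dec n _ hn e')) hn l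
            (H' d k ⟨((sys n hn).1.mem hd (Or.inr ⟨rfl, rfl⟩)).2, hd⟩ hk e) hd
        · obtain ⟨d, hd⟩ := ne m hm
          obtain ⟨k, hk, e⟩ := hcon' d
          refine H' d k ⟨((sys m hm).1.mem hd (Or.inr ⟨rfl, rfl⟩)).2, by_contra (fun e' =>
            mono_le (U := fun n d => ¬ Ok E (J n) (fun a b => R E g a b ∨ (a = c ∧ b = d)))
              (fun n d hn e e' => e (dec n _ hn e')) hm l e' hd)⟩ hk e hd
      · refine S.hA.inf ((S.hA.stab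
          (U := fun n d => E d S.A ∧ ¬ Ok E (J n) (fun a b => R E g a b ∨ (a = c ∧ b = d)))
          (fun n hn => (S.hA.split _).resolve_left (fun e => H ⟨n, hn, e⟩))
          (fun n d hn e => ⟨e.1, fun e' => e.2 (dec n _ hn e')⟩)).mono (fun d hd => ?_))
        obtain ⟨n, hn, e⟩ := hcon' d
        exact ⟨hd, n, hn, hd, e⟩
    obtain ⟨d, hd⟩ := this
    exact ⟨d, (lim _ hd).mono (fun a b e => e.imp (g2 a b) id)⟩
  · rintro P ⟨t, t1, t2⟩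
    have hD : KF E (sp E t (fun a => E a S.A)) := t1.sub (fun x hx => (mem_sp.mp hx).1)
    have hDA : ∀ a, E a (sp E t (fun a => E a S.A)) → E a S.A := fun a ha => (mem_sp.mp ha).2
    have hD2 : ∀ a, E a S.A → P a → E a (sp E t (fun a => E a S.A)) :=
      fun a h1 h2 => mem_sp.mpr ⟨t2 a h2, h1⟩
    generalize sp E t (fun a => E a S.A) = D at hD hDA hD2
    refine ⟨_, S.hA.stab (U := fun n c => E c S.A ∧ FinP E (fun d => E d S.A ∧
      Ok E (J n) (fun a b => (E a D ∧ a = b) ∨ (a = c ∧ b = d)))) (fun n hn => ?_)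
      (fun n c hn e => ⟨e.1, e.2.mono (fun d e' => ⟨e'.1, dec n _ hn e'.2⟩)⟩),
      fun c d hc hd n1 n2 => (lim (fun a b => (E a D ∧ a = b) ∨ (a = c ∧ b = d))
        (fun n hn => ?_)).mono (fun a b e => e.imp (fun e => ⟨hD2 a e.1 e.2.1, e.2.2⟩) id)⟩
    · obtain ⟨s, s1, s2⟩ := (sys n hn).2.gen hD hDA
      refine s1.mono (fun c e => by_contra (fun e' => ?_))
      obtain ⟨d, d1, d2⟩ := S.hA.exists_not (s1.or e.2)
      exact d2 (Or.inr ⟨d1, s2 c d e.1 d1 e' (fun m => d2 (Or.inl m))⟩)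
    · have m1 := (S.hA.split _).resolve_left (fun e => n1 ⟨hc, n, hn, hc, e⟩)
      have m2 := (S.hA.split _).resolve_left (fun e => n2 ⟨hd, n, hn, hd, e⟩)
      obtain ⟨x, x1, x2⟩ := S.hA.exists_not (m1.or m2)
      have x3 := not_not.mp (not_and.mp (not_or.mp x2).1 x1)
      have x4 := not_not.mp (not_and.mp (not_or.mp x2).2 x1)
      refine ((sys n hn).1.comp x3 ((sys n hn).1.symm x4)).mono ?_
      rintro a b (⟨e, rfl⟩ | ⟨rfl, rfl⟩)
      · exact ⟨a, Or.inl ⟨e, rfl⟩, Or.inl ⟨e, rfl⟩⟩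
      · exact ⟨x, Or.inr ⟨rfl, rfl⟩, Or.inr ⟨rfl, rfl⟩⟩

end Setup

end Pool.Agent.P.MP_92320c_lc
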