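import Mathlib
import Pool.Agent.P.MP_92320c_lc.Index

/-! The pregeometry of a homogeneous back-and-forth system; the nontrivial case. -/

namespace Pool.Agent.P.MP_92320c_lc

universe u

variable {M : Type u} {E : M → M → Prop} [hZ : ZF E]

theorem FinP.set {P : M → Prop} [Dfn E (fun v => P (v 0))] (h : FinP E P) :
    ∃ s, KF E s ∧ ∀ x, E x s ↔ P x := by
  obtain ⟨s, h1, h2⟩ := h
  exact ⟨sp E s P, h1.sub (fun x hx => (mem_sp.mp hx).1),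
    fun x => mem_sp.trans ⟨fun h => h.2, fun h => ⟨h2 x h, h⟩⟩⟩

namespace Setup

variable {S : Setup E} {I : M}

variable (S I) in
/-- `c` has a finite orbit over `P`. -/
def cl (P : M → Prop) (c : M) : Prop := E c S.A ∧
  FinP E (fun d => Ok E I (fun a b => (E a S.A ∧ P a ∧ a = b) ∨ (a = c ∧ b = d)))

instance {P : (ℕ → M) → M → Prop} [h : Dfn E (fun v => P (fun n => v (n + 1)) (v 0))]
    {c : (ℕ → M) → M} [Tm E c] : Dfn E (fun v => S.cl I (P v) (c v)) := by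
  have h3 : Dfn E (fun v => P (fun n => v (n + 3)) (v 1)) := h.ren (cons 1 (fun n => n + 3))
  unfold cl; infer_instance

theorem cl.mono {P Q : M → Prop} {c : M} (h : S.cl I P c) (H : ∀ a, E a S.A → P a → Q a) :
    S.cl I Q c :=
  ⟨h.1, h.2.mono (fun _ e => e.mono (fun a _ m => m.imp (fun m => ⟨m.1, H a m.1 m.2.1, m.2.2⟩) id))⟩

variable (hG : S.Good I) {P Q : M → Prop} {r : M → M → Prop} {a b c d : M}
include hG

theorem Good.cl_self (hc : E c S.A) (h : P c) : S.cl I P c :=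
  ⟨hc, (finP_eq c).mono (fun _ e => ((hG.sys.inj e (Or.inl ⟨hc, h, rfl⟩)
    (Or.inr ⟨rfl, rfl⟩)).mp rfl).symm)⟩

theorem Good.cl_fin (h : FinP E P) : FinP E (S.cl I P) := by
  obtain ⟨s, h1, h2⟩ := hG.gen P h
  refine h1.mono (fun c hc => by_contra (fun e => ?_))
  obtain ⟨d, d1, d2⟩ := S.hA.exists_not (h1.or hc.2)
  exact d2 (Or.inr (h2 c d hc.1 d1 e (fun m => d2 (Or.inl m))))

theorem Good.ncl_ok (h : FinP E P) (hc : E c S.A) (hd : E d S.A) (n1 : ¬ S.cl I P c)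
    (n2 : ¬ S.cl I P d) : Ok E I (fun a b => (E a S.A ∧ P a ∧ a = b) ∨ (a = c ∧ b = d)) := by
  obtain ⟨s, h1, h2⟩ := hG.gen P h
  have key : ∀ c, E c S.A → ¬ S.cl I P c → ∃ c', ¬ s c' ∧
      Ok E I (fun a b => (E a S.A ∧ P a ∧ a = b) ∨ (a = c ∧ b = c')) := fun c hc n =>
    by_contra (fun e => n ⟨hc, h1.mono (fun c' m => by_contra (fun e' => e ⟨c', e', m⟩))⟩)
  obtain ⟨c', c1, c2⟩ := key c hc n1
  obtain ⟨d', d1, d2⟩ := key d hd n2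
  refine (hG.sys.comp (hG.sys.comp c2 (h2 c' d' (hG.sys.mem c2 (Or.inr ⟨rfl, rfl⟩)).2
    (hG.sys.mem d2 (Or.inr ⟨rfl, rfl⟩)).2 c1 d1)) (hG.sys.symm d2)).mono ?_
  rintro a b (⟨e1, e2, rfl⟩ | ⟨rfl, rfl⟩)
  · exact ⟨a, ⟨a, Or.inl ⟨e1, e2, rfl⟩, Or.inl ⟨e1, e2, rfl⟩⟩, Or.inl ⟨e1, e2, rfl⟩⟩
  · exact ⟨d', ⟨c', Or.inr ⟨rfl, rfl⟩, Or.inr ⟨rfl, rfl⟩⟩, Or.inr ⟨rfl, rfl⟩⟩

theorem Good.extend1 (h : Ok E I r) (hP : FinP E P) : ∃ g, E g I ∧ (∀ a b, r a b → R E g a b) ∧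
    ∀ a, E a S.A → P a → ∃ b, R E g a b := by
  obtain ⟨g, g1, g2⟩ := h
  obtain ⟨s, s1, s2⟩ := hP
  obtain ⟨k, k1, k2, k3⟩ := s1.ind (P := fun s => ∃ k, E k I ∧ (∀ a b, R E g a b → R E k a b) ∧
      ∀ a, E a S.A → E a s → ∃ b, R E k a b)
    ⟨g, g1, fun _ _ h => h, fun a _ h => absurd h (not_mem_emp a)⟩ (by
      rintro t a - - - ⟨k, k1, k2, k3⟩
      by_cases ha : E a S.A
      · obtain ⟨d, l, l1, l2⟩ := hG.forth _ a (ok_self k1) ha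
        refine ⟨l, l1, fun x y e => l2 x y (Or.inl (k2 x y e)), fun x hx e => ?_⟩
        rcases mem_ins.mp e with rfl | e
        · exact ⟨d, l2 _ _ (Or.inr ⟨rfl, rfl⟩)⟩
        · exact (k3 x hx e).imp (fun y e => l2 x y (Or.inl e))
      · exact ⟨k, k1, k2, fun x hx e => k3 x hx ((mem_ins.mp e).resolve_left
          (fun e => ha (e ▸ hx)))⟩)
  exact ⟨k, k1, fun a b e => k2 a b (g2 a b e), fun a ha e => k3 a ha (s2 a e)⟩

theorem Good.extend (h : Ok E I r) (hP : FinP E P) (hQ : FinP E Q) : ∃ g, E g I ∧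
    (∀ a b, r a b → R E g a b) ∧ (∀ a, E a S.A → P a → ∃ b, R E g a b) ∧
    ∀ b, E b S.A → Q b → ∃ a, R E g a b := by
  obtain ⟨g, g1, g2, g3⟩ := hG.extend1 h hP
  obtain ⟨k, k1, k2, k3⟩ := hG.extend1 (hG.sys.symm (ok_self g1)) hQ
  obtain ⟨l, l1, l2⟩ := hG.sys.symm (ok_self k1)
  exact ⟨l, l1, fun a b e => l2 a b (k2 b a (g2 a b e)), fun a ha e =>
    (g3 a ha e).imp (fun b e => l2 a b (k2 b a e)), fun b hb e =>
    (k3 b hb e).imp (fun a e => l2 a b e)⟩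

theorem Good.cl_map (h : Ok E I r) (e : r c d) (H : ∀ a, E a S.A → P a → ∃ b, Q b ∧ r a b)
    (hc : S.cl I P c) : S.cl I Q d := by
  obtain ⟨g, g1, g2, g3⟩ := hG.extend1 h hc.2
  refine ⟨(hG.sys.mem h e).2, (hG.sys.ran (ok_self g1)).mono (fun d' hd' => ?_)⟩
  obtain ⟨c', hc'⟩ := hG.forth _ d' (hG.sys.symm (ok_self g1)) (hG.sys.mem hd' (Or.inr ⟨rfl, rfl⟩)).2
  obtain ⟨b, hb⟩ := g3 c' (hG.sys.mem hc' (Or.inr ⟨rfl, rfl⟩)).2
    ((hG.sys.comp (hG.sys.comp (ok_self g1) hd') hc').mono (by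
      rintro x y (⟨e1, e2, rfl⟩ | ⟨rfl, rfl⟩)
      · obtain ⟨z, z1, z2⟩ := H x e1 e2
        exact ⟨z, ⟨z, g2 _ _ z2, Or.inl ⟨(hG.sys.mem h z2).2, z1, rfl⟩⟩, Or.inl (g2 _ _ z2)⟩
      · exact ⟨d', ⟨d, g2 _ _ e, Or.inr ⟨rfl, rfl⟩⟩, Or.inr ⟨rfl, rfl⟩⟩))
  exact ⟨c', (hG.sys.inj hc' (Or.inl hb) (Or.inr ⟨rfl, rfl⟩)).mpr rfl ▸ hb⟩

theorem Good.gen_ext (h : Ok E I r) (hc : E c S.A) (hd : E d S.A) (n1 : ¬ S.cl I P c)
    (n2 : ¬ S.cl I Q d) (H : ∀ a b, r a b → P a ∧ Q b) :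
    Ok E I (fun a b => r a b ∨ (a = c ∧ b = d)) := by
  obtain ⟨e, he⟩ := hG.forth r c h hc
  have n3 : ¬ S.cl I (fun b => ∃ a, r a b) e := fun m => n1 (hG.cl_map (hG.sys.symm he)
    (Or.inr ⟨rfl, rfl⟩) (fun b _ ⟨a, m⟩ => ⟨a, (H a b m).1, Or.inl m⟩) m)
  refine (hG.sys.comp he (hG.ncl_ok (hG.sys.ran h) (hG.sys.mem he (Or.inr ⟨rfl, rfl⟩)).2 hd n3
    (fun m => n2 (m.mono (fun b _ ⟨a, m⟩ => (H a b m).2))))).mono ?_
  rintro x y (m | ⟨rfl, rfl⟩)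
  · exact ⟨y, Or.inl m, Or.inl ⟨(hG.sys.mem h m).2, ⟨x, m⟩, rfl⟩⟩
  · exact ⟨e, Or.inr ⟨rfl, rfl⟩, Or.inr ⟨rfl, rfl⟩⟩

theorem Good.cl_trans (hP : FinP E P) (h : S.cl I Q c) (H : ∀ a, E a S.A → Q a → S.cl I P a) :
    S.cl I P c := by
  by_contra n
  obtain ⟨d, hd, n2⟩ := S.hA.exists_not (hG.cl_fin (hG.cl_fin hP))
  obtain ⟨g, g1, g2, g3⟩ := hG.extend1 (hG.ncl_ok hP h.1 hd n
    (fun m => n2 (m.mono (fun a ha => hG.cl_self ha)))) (hG.cl_fin hP)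
  refine n2 (hG.cl_map (ok_self g1) (g2 _ _ (Or.inr ⟨rfl, rfl⟩)) (fun a ha m => ?_) h)
  obtain ⟨b, hb⟩ := g3 a ha (H a ha m)
  exact ⟨b, hG.cl_map (ok_self g1) hb (fun z hz m => ⟨z, m, g2 _ _ (Or.inl ⟨hz, m, rfl⟩)⟩)
    (H a ha m), hb⟩

theorem Good.exchange [hD : Dfn E (fun v => P (v 0))] (hP : FinP E P) (hb : E b S.A)
    (h : S.cl I (fun x => P x ∨ x = b) a) (n : ¬ S.cl I P a) :
    S.cl I (fun x => P x ∨ x = a) b := by
  have := hD.one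
  by_contra n2
  have f1 := hG.cl_fin (hP.or (finP_eq b))
  obtain ⟨t, ht, n3⟩ := S.hA.exists_not f1
  have f2 := f1.or (finP_eq t)
  obtain ⟨b', hb', n4⟩ := S.hA.exists_not (hG.cl_fin (hP.or f2))
  have k1 : ∀ x, E x S.A → (S.cl I (fun x => P x ∨ x = b) x ∨ x = t) →
      S.cl I (fun x => P x ∨ x = b') x := by
    intro x hx m
    by_cases e : S.cl I P x
    · exact e.mono (fun _ _ => Or.inl)
    refine hG.cl_map (hG.gen_ext (hG.ncl_ok hP h.1 hx n e) hb hb' n2 n4 ?_)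
      (Or.inl (Or.inr ⟨rfl, rfl⟩)) ?_ h
    · rintro y z (⟨-, e2, rfl⟩ | ⟨rfl, rfl⟩)
      · exact ⟨Or.inl e2, Or.inl e2⟩
      · exact ⟨Or.inr rfl, Or.inr m⟩
    · rintro y hy (e2 | rfl)
      · exact ⟨y, Or.inl e2, Or.inl (Or.inl ⟨hy, e2, rfl⟩)⟩
      · exact ⟨b', Or.inr rfl, Or.inr ⟨rfl, rfl⟩⟩
  obtain ⟨g, g1, g2, g3⟩ := hG.extend1 (hG.ncl_ok hP hb' hb
    (fun m => n4 (m.mono (fun _ _ => Or.inl))) (fun m => n2 (m.mono (fun _ _ => Or.inl)))) f2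
  have k2 : ∀ x y, R E g x y → (S.cl I (fun x => P x ∨ x = b) x ∨ x = t) →
      S.cl I (fun x => P x ∨ x = b) y := fun x y e m =>
    hG.cl_map (ok_self g1) e (by
      rintro z hz (e2 | rfl)
      · exact ⟨z, Or.inl e2, g2 _ _ (Or.inl ⟨hz, e2, rfl⟩)⟩
      · exact ⟨b, Or.inr rfl, g2 _ _ (Or.inr ⟨rfl, rfl⟩)⟩)
      (k1 x (hG.sys.mem (ok_self g1) e).1 m)
  obtain ⟨x, x1, x2⟩ := ded f2 (r := R E g) (fun x m => by
      obtain ⟨y, e⟩ := g3 x (m.elim (fun m => m.1) (fun e => e ▸ ht)) m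
      exact ⟨y, Or.inl (k2 x y e m), e⟩)
    (fun x x' y e e' => (hG.sys.inj (ok_self g1) e e').mpr rfl) (Or.inr rfl)
  exact n3 (k2 x t x2 x1)

/-- The nontrivial case. -/
theorem Good.nontrivial {p : M} (hp : KF E p) (ha : E a S.A) (hb : E b S.A)
    (h : S.cl I (fun x => (E x p ∨ x = a) ∨ x = b) c) (n1 : ¬ S.cl I (fun x => E x p ∨ x = a) c)
    (n2 : ¬ S.cl I (fun x => E x p ∨ x = b) c) :
    ∃ Φ : M → M, Tm E (fun v => Φ (v 0)) ∧ (∀ s, E (Φ s) (pow E S.A)) ∧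
      (∀ t, E t (pow E S.A) → ∃ s, E s (pow E S.A) ∧ Φ s = t) ∧
      ∃ s s', E s (pow E S.A) ∧ E s' (pow E S.A) ∧ s ≠ s' ∧ Φ s = Φ s' := by
  have f0 := hp.finP
  have n3 : ¬ S.cl I (fun x => E x p) a := fun m => n2 (hG.cl_trans (f0.or (finP_eq b)) h (by
    rintro x hx ((e | rfl) | e)
    · exact hG.cl_self hx (Or.inl e)
    · exact m.mono (fun _ _ => Or.inl)
    · exact hG.cl_self hx (Or.inr e)))
  have n4 : ¬ S.cl I (fun x => E x p ∨ x = a) b := fun m => n1 (hG.cl_trans (f0.or (finP_eq a)) h (by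
    rintro x hx (e | rfl)
    · exact hG.cl_self hx e
    · exact m))
  have third : ∀ t u, E t S.A → E u S.A → ¬ S.cl I (fun x => E x p) t →
      ¬ S.cl I (fun x => E x p ∨ x = t) u → ∃ v, S.cl I (fun x => (E x p ∨ x = t) ∨ x = u) v ∧
        ¬ S.cl I (fun x => E x p ∨ x = t) v ∧ ¬ S.cl I (fun x => E x p ∨ x = u) v := by
    intro t u ht hu m1 m2
    obtain ⟨v, hv⟩ := hG.forth _ c (hG.gen_ext (hG.ncl_ok f0 ha ht n3 m1) hb hu n4 m2 (by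
      rintro y z (⟨-, e2, rfl⟩ | ⟨rfl, rfl⟩)
      · exact ⟨Or.inl e2, Or.inl e2⟩
      · exact ⟨Or.inr rfl, Or.inr rfl⟩)) h.1
    refine ⟨v, hG.cl_map hv (Or.inr ⟨rfl, rfl⟩) ?_ h,
      fun m => n1 (hG.cl_map (hG.sys.symm hv) (Or.inr ⟨rfl, rfl⟩) ?_ m),
      fun m => n2 (hG.cl_map (hG.sys.symm hv) (Or.inr ⟨rfl, rfl⟩) ?_ m)⟩
    · rintro z hz ((e | rfl) | rfl)
      · exact ⟨z, Or.inl (Or.inl e), Or.inl (Or.inl (Or.inl ⟨hz, e, rfl⟩))⟩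
      · exact ⟨t, Or.inl (Or.inr rfl), Or.inl (Or.inl (Or.inr ⟨rfl, rfl⟩))⟩
      · exact ⟨u, Or.inr rfl, Or.inl (Or.inr ⟨rfl, rfl⟩)⟩
    · rintro z hz (e | rfl)
      · exact ⟨z, Or.inl e, Or.inl (Or.inl (Or.inl ⟨hz, e, rfl⟩))⟩
      · exact ⟨a, Or.inr rfl, Or.inl (Or.inl (Or.inr ⟨rfl, rfl⟩))⟩
    · rintro z hz (e | rfl)
      · exact ⟨z, Or.inl e, Or.inl (Or.inl (Or.inl ⟨hz, e, rfl⟩))⟩
      · exact ⟨b, Or.inr rfl, Or.inl (Or.inr ⟨rfl, rfl⟩)⟩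
  have sub : ∀ (P : M → Prop) [Dfn E (fun v => P (v 0))], E (sp E S.A P) (pow E S.A) :=
    fun P _ => mem_pow.mpr (fun x hx => (mem_sp.mp hx).1)
  have closed : ∀ q, KF E q → (∀ x, E x p → E x q) →
      sp E S.A (fun x => (KF E (sp E S.A (S.cl I (fun x => E x q))) ∧
        S.cl I (fun y => E y p ∨ E y (sp E S.A (S.cl I (fun x => E x q)))) x ∧
        ¬ E x (sp E S.A (S.cl I (fun x => E x q)))) ∨
        (¬ KF E (sp E S.A (S.cl I (fun x => E x q))) ∧ E x (sp E S.A (S.cl I (fun x => E x q))))) =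
      emp E := by
    intro q hq H
    refine ext (E := E) (fun x => iff_of_false (fun hx => ?_) (not_mem_emp x))
    rcases (mem_sp.mp hx).2 with ⟨-, e1, e2⟩ | ⟨e, -⟩
    · refine e2 (mem_sp.mpr ⟨e1.1, hG.cl_trans hq.finP e1 ?_⟩)
      rintro y hy (e | e)
      · exact hG.cl_self hy (H y e)
      · exact (mem_sp.mp e).2
    · exact e ((hG.cl_fin hq.finP).kf (fun x hx => (mem_sp.mp hx).2))
  refine ⟨fun s => sp E S.A (fun x => (KF E s ∧ S.cl I (fun y => E y p ∨ E y s) x ∧ ¬ E x s) ∨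
    (¬ KF E s ∧ E x s)), inferInstance, fun s => sub _, fun T hT => ?_,
    sp E S.A (S.cl I (fun x => E x p)), sp E S.A (S.cl I (fun x => E x (ins E a p))), sub _, sub _,
    fun e => n3 (mem_sp.mp (e ▸ mem_sp.mpr ⟨ha, hG.cl_self ha (mem_ins.mpr (Or.inl rfl))⟩ :
      E a (sp E S.A (S.cl I (fun x => E x p))))).2,
    (closed p hp (fun _ h => h)).trans
      (closed _ (hp.ins a) (fun _ h => mem_ins.mpr (Or.inr h))).symm⟩
  by_cases hK : KF E T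
  swap
  · exact ⟨T, hT, ext (E := E) (fun x => mem_sp.trans ⟨fun e => e.2.elim (fun e => absurd e.1 hK)
      (fun e => e.2), fun e => ⟨mem_pow.mp hT x e, Or.inr ⟨hK, e⟩⟩⟩)⟩
  have f1 := f0.or hK.finP
  obtain ⟨u, hu, m1⟩ := S.hA.exists_not (hG.cl_fin f1)
  have f2 := f1.or (finP_eq u)
  have hs : KF E (sp E S.A (fun x => S.cl I (fun y => (E y p ∨ E y T) ∨ y = u) x ∧ ¬ E x T)) :=
    (hG.cl_fin f2).kf (fun x hx => (mem_sp.mp hx).2.1)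
  refine ⟨sp E S.A (fun x => S.cl I (fun y => (E y p ∨ E y T) ∨ y = u) x ∧ ¬ E x T), sub _,
    ext (E := E) (fun x => mem_sp.trans ⟨?_, fun e => ⟨mem_pow.mp hT x e, Or.inl ⟨hs, ?_,
      fun m => (mem_sp.mp m).2.2 e⟩⟩⟩)⟩
  · rintro ⟨hx, ⟨-, e1, e2⟩ | ⟨e, -⟩⟩
    · refine by_contra (fun e => e2 (mem_sp.mpr ⟨hx, hG.cl_trans f2 e1 ?_, e⟩))
      rintro y hy (m | m)
      · exact hG.cl_self hy (Or.inl (Or.inl m))
      · exact (mem_sp.mp m).2.1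
    · exact absurd hs e
  · by_cases m2 : S.cl I (fun y => E y p) x
    · exact m2.mono (fun _ _ => Or.inl)
    have hx := mem_pow.mp hT x e
    obtain ⟨v, v1, v2, v3⟩ := third x u hx hu m2
      (fun m => m1 (m.mono (fun y _ m => m.imp id (fun m : y = x => m ▸ e))))
    have v4 : ¬ E v T := fun m => m1 ((hG.exchange (f0.or (finP_eq x)) hu v1 v2).mono (by
      rintro y - ((m' | rfl) | rfl)
      · exact Or.inl m'
      · exact Or.inr e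
      · exact Or.inr m))
    refine (hG.exchange (f0.or (finP_eq u)) hx (v1.mono (fun y _ m => by tauto)) v3).mono ?_
    rintro y hy ((m | rfl) | rfl)
    · exact Or.inl m
    · exact Or.inr (mem_sp.mpr ⟨hy, hG.cl_self hy (Or.inr rfl),
        fun m => m1 (hG.cl_self hy (Or.inr m))⟩)
    · exact Or.inr (mem_sp.mpr ⟨hy, v1.mono (fun z _ m => m.imp (fun m => m.imp id
        (fun m : z = x => m ▸ e)) id), v4⟩)

end Setup

end Pool.Agent.P.MP_92320c_lc
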