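import Mathlib
import Pool.Agent.P.MP_92320c_lc.Geo

/-! The counting argument of the trivial case. -/

namespace Pool.Agent.P.MP_92320c_lc

universe u

variable {M : Type u} {E : M → M → Prop} [hZ : ZF E]

namespace Setup

variable {S : Setup E}

variable (S) in
/-- Some iterate of `F` sends `y` to `x`. -/
def Above (x y : M) : Prop := ∀ c, E x c → (∀ z, E z S.X → E (S.F z) c → E z c) → E y c

instance {x y : (ℕ → M) → M} [Tm E x] [Tm E y] : Dfn E (fun v => S.Above (x v) (y v)) := by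
  unfold Above; infer_instance

theorem Above.refl (x : M) : S.Above x x := fun _ h _ => h

theorem Above.step {x z : M} (hz : E z S.X) (h : S.Above x (S.F z)) : S.Above x z :=
  fun c h0 h1 => h1 z hz (h c h0 h1)

theorem Above.trans {w x y : M} (h : S.Above w x) (h' : S.Above x y) : S.Above w y :=
  fun c h0 h1 => h' c (h c h0 h1) h1

theorem Above.ind {x y : M} (h : S.Above x y) (hx : E x S.X) {P : M → Prop}
    [Dfn E (fun v => P (v 0))] (h0 : P x) (h1 : ∀ z, E z S.X → P (S.F z) → P z) :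
    E y S.X ∧ P y :=
  mem_sp.mp (h (sp E S.X P) (mem_sp.mpr ⟨hx, h0⟩)
    (fun z hz e => mem_sp.mpr ⟨hz, h1 z hz (mem_sp.mp e).2⟩))

theorem count {N : M → Prop} [hN : Dfn E (fun v => N (v 0))]
    (N1 : FinP E (fun a => E a S.A ∧ ¬ N a))
    {Q : M → M → M → Prop} [hQ : Dfn E (fun v => Q (v 0) (v 1) (v 2))]
    (symm : ∀ x a b, Q x a b → Q x b a) (trans : ∀ x a b c, Q x a b → Q x b c → Q x a c)
    (Q1 : ∀ x a b, N a → Q x a b → S.col x a = S.col x b)
    (Q2 : ∀ y a b, E y S.X → N a → N b → Q y a b → Q (S.F y) a b)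
    {K : M} (hK : KF E K) {τ : M → M → M} [hτ : Tm E (fun v => τ (v 0) (v 1))]
    (τ1 : ∀ x a, E (τ x a) K) (τ2 : ∀ x a b, E x S.X → N a → N b → τ x a = τ x b → Q x a b)
    (surj : ∀ y, E y S.X → ∃ z, E z S.X ∧ S.F z = y) {u u' : M} (hu : E u S.X) (hu' : E u' S.X)
    (e : S.F u = S.F u') : u = u' := by
  have := hN.one
  have := hQ.three
  have := hτ.two
  have hw := S.F_mem u hu
  have mem : ∀ x y, E x S.X → S.Above x y → E y S.X := fun x y hx h =>
    (h.ind hx (P := fun _ => True) trivial (fun _ _ _ => trivial)).1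
  have ref : ∀ x y a b, E x S.X → S.Above x y → N a → N b → Q y a b → Q x a b :=
    fun x y a b hx h ha hb => (h.ind hx (P := fun y => Q y a b → Q x a b) id
      (fun z hz ih m => ih (Q2 z a b hz ha hb m))).2
  have hmax : ∃ x, S.Above (S.F u) x ∧ ∀ y a b, S.Above x y → N a → N b → Q x a b → Q y a b := by
    by_contra hcon
    have hcon' : ∀ x, S.Above (S.F u) x → ∃ y a b, S.Above x y ∧ N a ∧ N b ∧ Q x a b ∧ ¬ Q y a b :=
      fun x hx => by_contra (fun m => hcon ⟨x, hx, fun y a b e1 e2 e3 e4 =>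
        by_contra (fun e5 => m ⟨y, a, b, e1, e2, e3, e4, e5⟩)⟩)
    obtain ⟨x, J, x1, J1, J2, J3, -⟩ := (hK.ins K).ind (P := fun t => ∃ x J, S.Above (S.F u) x ∧
        (∀ d, E d t → ∃ a, R E J d a) ∧ (∀ d a, R E J d a → E d t ∧ N a) ∧
        (∀ d d' a a', R E J d a → R E J d' a' → Q x a a' → d = d') ∧
        ∀ d a a', R E J d a → R E J d a' → a = a')
      ⟨S.F u, emp E, Above.refl _, fun d hd => absurd hd (not_mem_emp d),
        fun _ _ h => absurd h (not_mem_emp _), fun _ _ _ _ h => absurd h (not_mem_emp _),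
        fun _ _ _ h => absurd h (not_mem_emp _)⟩ (by
      rintro t d - - - ⟨x, J, x1, J1, J2, J3, J4⟩
      by_cases hd : E d t
      · exact ⟨x, J, x1, fun d' h => J1 d' ((mem_ins.mp h).elim (fun e => e ▸ hd) id),
          fun d' a h => ⟨mem_ins.mpr (Or.inr (J2 d' a h).1), (J2 d' a h).2⟩, J3, J4⟩
      obtain ⟨y, a, b, y1, ha, hb, y2, y3⟩ := hcon' x x1
      have hx := mem _ _ hw x1
      have new : ∃ c, N c ∧ ∀ d' c', R E J d' c' → ¬ Q y c c' := by
        by_contra m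
        have m' : ∀ c, N c → ∃ d' c', R E J d' c' ∧ Q y c c' := fun c hc =>
          by_contra (fun m' => m ⟨c, hc, fun d' c' e1 e2 => m' ⟨d', c', e1, e2⟩⟩)
        obtain ⟨d1, c1, e1, e2⟩ := m' a ha
        obtain ⟨d2, c2, e3, e4⟩ := m' b hb
        obtain rfl := J3 _ _ _ _ e1 e3 (trans _ _ _ _ (symm _ _ _ (ref _ _ _ _ hx y1 ha
          (J2 _ _ e1).2 e2)) (trans _ _ _ _ y2 (ref _ _ _ _ hx y1 hb (J2 _ _ e3).2 e4)))
        obtain rfl := J4 _ _ _ e1 e3
        exact y3 (trans _ _ _ _ e2 (symm _ _ _ e4))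
      obtain ⟨c, hc, new⟩ := new
      refine ⟨y, ins E (op E d c) J, x1.trans y1, fun d' h => ?_, ?_, ?_, ?_⟩
      · rcases mem_ins.mp h with rfl | h
        · exact ⟨c, mem_ins.mpr (Or.inl rfl)⟩
        · exact (J1 d' h).imp (fun a e => mem_ins.mpr (Or.inr e))
      · simp only [R, mem_ins, op_eq]
        rintro d' a' (⟨rfl, rfl⟩ | m)
        · exact ⟨Or.inl rfl, hc⟩
        · exact ⟨Or.inr (J2 _ _ m).1, (J2 _ _ m).2⟩
      · simp only [R, mem_ins, op_eq]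
        rintro d1 d2 a1 a2 (⟨rfl, rfl⟩ | m1) (⟨rfl, rfl⟩ | m2) m
        · rfl
        · exact absurd m (new _ _ m2)
        · exact absurd (symm _ _ _ m) (new _ _ m1)
        · exact J3 _ _ _ _ m1 m2 (ref _ _ _ _ hx y1 (J2 _ _ m1).2 (J2 _ _ m2).2 m)
      · simp only [R, mem_ins, op_eq]
        rintro d1 a1 a2 (⟨rfl, rfl⟩ | m1) (⟨m2, rfl⟩ | m2)
        · rfl
        · exact absurd (J2 _ _ m2).1 hd
        · exact absurd (m2 ▸ (J2 _ _ m1).1) hd
        · exact J4 _ _ _ m1 m2)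
    obtain ⟨d, -, a, -, m⟩ := ded (hK.ins K).finP (r := fun d κ => ∃ a, R E J d a ∧ κ = τ x a)
      (fun d hd => by
        obtain ⟨a, ha⟩ := J1 d hd
        exact ⟨_, mem_ins.mpr (Or.inr (τ1 x a)), a, ha, rfl⟩)
      (fun d d' κ ⟨a, e1, e2⟩ ⟨a', e3, e4⟩ => J3 _ _ _ _ e1 e3 (τ2 x a a' (mem _ _ hw x1)
        (J2 _ _ e1).2 (J2 _ _ e3).2 (e2.symm.trans e4))) (mem_ins.mpr (Or.inl rfl))
    exact mem_irrefl K (m ▸ τ1 x a : E K K)
  obtain ⟨x, x1, hmax⟩ := hmax
  have hx := mem _ _ hw x1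
  obtain ⟨κ, hκ⟩ := S.hA.generic hK.finP (r := fun κ a => τ x a = κ) (fun a _ => ⟨_, τ1 x a, rfl⟩)
  obtain ⟨W, W1, W2⟩ := (N1.or hκ).set
  obtain ⟨a0, ha0, n0⟩ := S.hA.exists_not W1.finP
  have W3 : ∀ a, E a S.A → ¬ E a W → N a ∧ τ x a = κ := fun a ha m =>
    ⟨by_contra (fun m' => m ((W2 a).mpr (Or.inl ⟨ha, m'⟩))),
      by_contra (fun m' => m ((W2 a).mpr (Or.inr ⟨ha, m'⟩)))⟩
  have W4 : ∀ a, E a W → E a S.A := fun a ha => ((W2 a).mp ha).elim And.left And.left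
  have fin : FinP E (S.Above x) := by
    refine ((W1.prod S.hC).pow.finP.bind (P := fun k y => ∃ γ, E γ S.C ∧ E y S.X ∧
      (∀ a c, E a W → E c S.C → (R E k a c ↔ c = S.col y a)) ∧
      ∀ a, E a S.A → ¬ E a W → S.col y a = γ) (fun k => S.hC.finP.bind (P := fun γ y => E y S.X ∧
      (∀ a c, E a W → E c S.C → (R E k a c ↔ c = S.col y a)) ∧
      ∀ a, E a S.A → ¬ E a W → S.col y a = γ) (fun γ => finP_sub ?_))).mono (fun y hy => ?_)
    · rintro y z ⟨y1, y2, y3⟩ ⟨z1, z2, z3⟩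
      refine S.cext y z y1 z1 (fun a ha => ?_)
      by_cases m : E a W
      · have := S.col_mem y a y1 ha
        exact (z2 a _ m this).mp ((y2 a _ m this).mpr rfl)
      · exact (y3 a ha m).trans (z3 a ha m).symm
    · have y1 := mem _ _ hx hy
      refine ⟨rel E W S.C (fun a c => c = S.col y a), rel_mem_pow, _, S.col_mem y a0 y1 ha0, y1,
        fun a c e1 e2 => op_mem_rel.trans ⟨fun m => m.2.2, fun m => ⟨e1, e2, m⟩⟩, fun a ha m => ?_⟩
      have e1 := W3 a ha m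
      have e2 := W3 a0 ha0 n0
      exact Q1 y a a0 e1.1 (hmax y a a0 hy e1.1 e2.1 (τ2 x a a0 hx e1.1 e2.1 (e1.2.trans e2.2.symm)))
  have tot : ∀ y, S.Above x y → ∃ z, S.Above x z ∧ S.F z = y := fun y hy => by
    obtain ⟨z, z1, rfl⟩ := surj y (mem _ _ hx hy)
    exact ⟨z, hy.step z1, rfl⟩
  have cls : ∀ y, S.Above x y → S.Above x (S.F y) := fun y hy => by
    obtain ⟨z, z1, rfl⟩ := ded fin (r := fun y z => S.F z = y) tot
      (fun _ _ _ e1 e2 => e1.symm.trans e2) hy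
    exact z1
  have hw2 : S.Above x (S.F u) := (x1.ind hw (P := fun z => S.Above x z → S.Above x (S.F u)) id
    (fun z _ ih m => ih (cls z m))).2 (Above.refl x)
  by_contra ne
  obtain ⟨z, -, -, m⟩ := ded fin (r := fun y z => S.F z = y ∧ z ≠ u) (fun y hy => by
      obtain ⟨z, z1, z2⟩ := tot y hy
      by_cases m : z = u
      · exact ⟨u', Above.step hu' (e ▸ hw2), by rw [← e, ← m, z2], Ne.symm ne⟩
      · exact ⟨z, z1, z2, m⟩)
    (fun _ _ _ e1 e2 => e1.1.symm.trans e2.1) (hw2.step hu)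
  exact m rfl

end Setup

end Pool.Agent.P.MP_92320c_lc
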