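import Mathlib
import Pool.Agent.P.MP_92320c_lc.Count

/-! The trivial case. -/

namespace Pool.Agent.P.MP_92320c_lc

universe u

variable {M : Type u} {E : M → M → Prop} [hZ : ZF E]

namespace Setup

variable {S : Setup E} {I : M}

variable (S I) in
/-- The block of `a`. -/
def B (a u : M) : Prop := S.cl I (fun x => x = a) u

instance {a u : (ℕ → M) → M} [Tm E a] [Tm E u] : Dfn E (fun v => S.B I (a v) (u v)) := by
  unfold B; infer_instance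

variable (S I) in
def Triv : Prop := ∀ p a b c, KF E p → E a S.A → E b S.A →
  S.cl I (fun x => (E x p ∨ x = a) ∨ x = b) c →
  S.cl I (fun x => E x p ∨ x = a) c ∨ S.cl I (fun x => E x p ∨ x = b) c

theorem Triv.split (hT : S.Triv I) {P : M → Prop} [Dfn E (fun v => P (v 0))] (hP : FinP E P) {c : M}
    (h : S.cl I P c) : S.cl I (fun _ => False) c ∨ ∃ q, E q S.A ∧ P q ∧ S.B I q c := by
  obtain ⟨t, t1, t2⟩ := hP.set
  have := t1.ind (P := fun t => ∀ p, KF E p → S.cl I (fun x => E x p ∨ E x t) c →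
      S.cl I (fun x => E x p) c ∨ ∃ q, E q S.A ∧ E q t ∧ S.cl I (fun x => E x p ∨ x = q) c)
    (fun p _ h => Or.inl (h.mono (fun x _ m => m.resolve_right (not_mem_emp x)))) (by
      intro t a _ _ _ ih p hp h
      by_cases ha : E a S.A
      · rcases ih (ins E a p) (hp.ins a) (h.mono (fun x _ m => by
          simp only [mem_ins] at m ⊢; tauto)) with m | ⟨q, q1, q2, m⟩
        · exact Or.inr ⟨a, ha, mem_ins.mpr (Or.inl rfl), m.mono (fun x _ m => (mem_ins.mp m).symm)⟩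
        · rcases hT p a q c hp ha q1 (m.mono (fun x _ m => m.imp
            (fun m => (mem_ins.mp m).symm) id)) with m | m
          · exact Or.inr ⟨a, ha, mem_ins.mpr (Or.inl rfl), m⟩
          · exact Or.inr ⟨q, q1, mem_ins.mpr (Or.inr q2), m⟩
      · refine (ih p hp (h.mono (fun x hx m => m.imp id (fun m => (mem_ins.mp m).resolve_left
          (fun e : x = a => ha (e ▸ hx)))))).imp id ?_
        exact fun ⟨q, q1, q2, m⟩ => ⟨q, q1, mem_ins.mpr (Or.inr q2), m⟩)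
    (emp E) kf_emp (h.mono (fun x _ m => Or.inr ((t2 x).mpr m)))
  refine this.imp (fun m => m.mono (fun x _ m => not_mem_emp x m)) ?_
  exact fun ⟨q, q1, q2, m⟩ => ⟨q, q1, (t2 q).mp q2,
    m.mono (fun x _ m => m.resolve_left (not_mem_emp x))⟩

variable (S I) in
/-- The automorphisms of the block of `a` over `p` fix every `Q` independent from `a`. -/
def Stat (p a : M) : Prop := ∀ (Q : M → Prop) [Dfn E (fun v => Q (v 0))], FinP E Q →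
  ¬ S.cl I (fun x => E x p ∨ Q x) a → ∀ σ : M → M → Prop, (∀ u v, σ u v → S.B I a u ∧ S.B I a v) →
  Ok E I (fun u v => (E u S.A ∧ E u p ∧ u = v) ∨ σ u v) →
  Ok E I (fun u v => (E u S.A ∧ (E u p ∨ Q u) ∧ u = v) ∨ σ u v)

variable (S I) in
/-- `g` fixes `p` and maps the block of `a` onto the block of `a'`. -/
def Blk (p g a a' : M) : Prop := E g I ∧ (∀ z, E z S.A → E z p → R E g z z) ∧ R E g a a' ∧
  (∀ u, S.B I a u → ∃ u', R E g u u') ∧ ∀ u', S.B I a' u' → ∃ u, R E g u u'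

instance {p g a b : (ℕ → M) → M} [Tm E p] [Tm E g] [Tm E a] [Tm E b] :
    Dfn E (fun v => S.Blk I (p v) (g v) (a v) (b v)) := by
  unfold Blk; infer_instance

variable (hG : S.Good I) {r : M → M → Prop} {p a a' b c u u' g h : M}
include hG

theorem Good.B_fin (a : M) : FinP E (S.B I a) := hG.cl_fin (finP_eq a)

theorem Good.B_map (h : Ok E I r) (e : r a a') (e' : r u u') (hu : S.B I a u) : S.B I a' u' :=
  hG.cl_map h e' (fun x _ (m : x = a) => ⟨a', rfl, m ▸ e⟩) hu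

theorem Good.B_symm (ha : E a S.A) (n : ¬ S.cl I (fun _ => False) b) (h : S.B I a b) :
    S.B I b a :=
  (hG.exchange finP_false ha (h.mono (fun _ _ => Or.inr)) n).mono (fun _ _ m => m.resolve_left id)

theorem Good.indep (hT : S.Triv I) (hp : KF E p) {Q : M → Prop} [hQ : Dfn E (fun v => Q (v 0))]
    (fQ : FinP E Q) (n : ¬ S.cl I (fun x => E x p) a) (H : ∀ q, Q q → ¬ S.B I a q) :
    ¬ S.cl I (fun x => E x p ∨ Q x) a := by
  have := hQ.one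
  have n0 : ¬ S.cl I (fun _ => False) a := fun m => n (m.mono (fun _ _ => False.elim))
  intro h
  rcases hT.split (hp.finP.or fQ) h with m | ⟨q, q1, q2 | q2, m⟩
  · exact n0 m
  · exact n (m.mono (fun x _ e => e ▸ q2))
  · exact H q q2 (hG.B_symm q1 n0 m)

theorem Good.exists_stat (n : ¬ S.cl I (fun _ => False) a) :
    ∃ p, KF E p ∧ ¬ S.cl I (fun x => E x p) a ∧ S.Stat I p a := by
  obtain ⟨B0, b1, b2⟩ := (hG.B_fin a).set
  obtain ⟨_, ⟨p, p1, p2, rfl⟩, -, H⟩ := exists_min (P := fun z => ∃ q, KF E q ∧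
      ¬ S.cl I (fun x => E x q) a ∧ z = sp E (pow E (prod E B0 B0))
        (fun σ => Ok E I (fun u v => (E u S.A ∧ E u q ∧ u = v) ∨ R E σ u v)))
    ((b1.prod b1).pow.sub (t := sp E (pow E (prod E B0 B0))
        (fun σ => Ok E I (fun u v => (E u S.A ∧ E u (emp E) ∧ u = v) ∨ R E σ u v)))
      (fun x hx => (mem_sp.mp hx).1))
    ⟨emp E, kf_emp, fun m => n (m.mono (fun x _ m => not_mem_emp x m)), rfl⟩
  refine ⟨p, p1, p2, fun Q hQ fQ n2 σ h1 h2 => ?_⟩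
  have := hQ.one
  obtain ⟨q, q1, q2⟩ := (p1.finP.or fQ).set
  obtain ⟨g, g1, g2⟩ := h2
  have := H _ ⟨q, q1, fun m => n2 (m.mono (fun x _ => (q2 x).mp)), rfl⟩
    (fun x hx => mem_sp.mpr ⟨(mem_sp.mp hx).1, (mem_sp.mp hx).2.mono (fun u v m => m.imp
      (fun m => ⟨m.1, (q2 u).mpr (Or.inl m.2.1), m.2.2⟩) id)⟩)
    (rel E B0 B0 (R E g)) (mem_sp.mpr ⟨rel_mem_pow, g, g1, fun u v m => m.elim
      (fun m => g2 u v (Or.inl m)) (fun m => (op_mem_rel.mp m).2.2)⟩)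
  exact (mem_sp.mp this).2.mono (fun u v m => m.imp (fun m => ⟨m.1, (q2 u).mpr m.2.1, m.2.2⟩)
    (fun m => op_mem_rel.mpr ⟨(b2 u).mpr (h1 u v m).1, (b2 v).mpr (h1 u v m).2, g2 u v (Or.inr m)⟩))

theorem Good.stat_move (hp : KF E p) (hb : E b S.A) (n : ¬ S.cl I (fun x => E x p) b)
    (h : S.Stat I p b) (ha : E a S.A) : S.Stat I p a := by
  intro Q hQ fQ n2 σ h1 h2
  have := hQ.one
  obtain ⟨g, g1, g2, g3⟩ := hG.extend1 (hG.ncl_ok hp.finP ha hb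
    (fun m => n2 (m.mono (fun _ _ => Or.inl))) n) ((hG.B_fin a).or fQ)
  have g0 := ok_self g1
  have g4 : R E g a b := g2 _ _ (Or.inr ⟨rfl, rfl⟩)
  have g5 : ∀ z, E z S.A → E z p → R E g z z := fun z h1 h2 => g2 _ _ (Or.inl ⟨h1, h2, rfl⟩)
  have := h (fun y => ∃ x, Q x ∧ R E g x y) ((hG.sys.ran g0).mono (fun y ⟨x, m⟩ => ⟨x, m.2⟩))
    (fun m => n2 (hG.cl_map (hG.sys.symm g0) g4 (by
      rintro y hy (e | ⟨x, e1, e2⟩)
      · exact ⟨y, Or.inl e, g5 y hy e⟩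
      · exact ⟨x, Or.inr e1, e2⟩) m))
    (fun u' v' => ∃ u v, σ u v ∧ R E g u u' ∧ R E g v v')
    (fun u' v' ⟨u, v, e1, e2, e3⟩ =>
      ⟨hG.B_map g0 g4 e2 (h1 u v e1).1, hG.B_map g0 g4 e3 (h1 u v e1).2⟩)
    ((hG.sys.comp (hG.sys.div g0 h2) g0).mono (by
      rintro x y (⟨e1, e2, rfl⟩ | ⟨u, v, e1, e2, e3⟩)
      · exact ⟨x, ⟨x, g5 x e1 e2, Or.inl ⟨e1, e2, rfl⟩⟩, g5 x e1 e2⟩
      · exact ⟨v, ⟨u, e2, Or.inr e1⟩, e3⟩))
  refine (hG.sys.comp (hG.sys.comp g0 this) (hG.sys.symm g0)).mono ?_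
  rintro x y (⟨e1, e2 | e2, rfl⟩ | e)
  · exact ⟨x, ⟨x, g5 x e1 e2, Or.inl ⟨e1, Or.inl e2, rfl⟩⟩, g5 x e1 e2⟩
  · obtain ⟨z, hz⟩ := g3 x e1 (Or.inr e2)
    exact ⟨z, ⟨z, hz, Or.inl ⟨(hG.sys.mem g0 hz).2, Or.inr ⟨x, e2, hz⟩, rfl⟩⟩, hz⟩
  · obtain ⟨x', hx'⟩ := g3 x (h1 x y e).1.1 (Or.inl (h1 x y e).1)
    obtain ⟨y', hy'⟩ := g3 y (h1 x y e).2.1 (Or.inl (h1 x y e).2)
    exact ⟨y', ⟨x', hx', Or.inr ⟨x, y, e, hx', hy'⟩⟩, hy'⟩

theorem Good.glue (hs : S.Stat I p a) {P Q : M → Prop} [hP : Dfn E (fun v => P (v 0))]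
    (fP : FinP E P) (hr : Ok E I r) (r1 : ∀ z, E z S.A → E z p → r z z)
    (r2 : ∀ x y, r x y → (E x p ∨ P x) ∧ Q y) (n1 : ¬ S.cl I (fun x => E x p ∨ P x) a)
    (n2 : ¬ S.cl I Q a') (hg : S.Blk I p g a a') :
    Ok E I (fun u u' => r u u' ∨ (S.B I a u ∧ R E g u u')) := by
  obtain ⟨g1, g2, g3, -, -⟩ := hg
  have g0 := ok_self g1
  obtain ⟨h, h1, h2, -, h3⟩ := hG.extend (hG.gen_ext hr (hG.sys.mem g0 g3).1 (hG.sys.mem g0 g3).2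
    n1 n2 r2) finP_false (hG.B_fin a')
  have h0 := ok_self h1
  have := hs P fP n1 (fun u u'' => S.B I a u ∧ ∃ u', R E g u u' ∧ R E h u'' u')
    (fun u u'' ⟨e1, u', e2, e3⟩ => ⟨e1, hG.B_map (hG.sys.symm h0) (h2 _ _ (Or.inr ⟨rfl, rfl⟩)) e3
      (hG.B_map g0 g3 e2 e1)⟩)
    ((hG.sys.comp g0 (hG.sys.symm h0)).mono (by
      rintro x y (⟨e1, e2, rfl⟩ | ⟨-, e⟩)
      · exact ⟨x, g2 x e1 e2, h2 _ _ (Or.inl (r1 x e1 e2))⟩
      · exact e))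
  refine (hG.sys.comp this h0).mono ?_
  rintro x y (e | ⟨e1, e2⟩)
  · exact ⟨x, Or.inl ⟨(hG.sys.mem hr e).1, (r2 x y e).1, rfl⟩, h2 _ _ (Or.inl e)⟩
  · obtain ⟨z, hz⟩ := h3 y (hG.sys.mem g0 e2).2 (hG.B_map g0 g3 e2 e1)
    exact ⟨z, Or.inr ⟨e1, y, e2, hz⟩, hz⟩

theorem Good.blk_of_ok (hr : Ok E I r) (r1 : ∀ z, E z S.A → E z p → r z z) (r2 : r a a')
    (r3 : ∀ u, S.B I a u → ∃ u', r u u') (r4 : ∀ u', S.B I a' u' → ∃ u, r u u') :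
    ∃ g, S.Blk I p g a a' ∧ ∀ u u', R E g u u' → S.B I a u → r u u' := by
  obtain ⟨g, g1, g2⟩ := hr
  refine ⟨g, ⟨g1, fun z h1 h2 => g2 _ _ (r1 z h1 h2), g2 _ _ r2,
    fun u hu => (r3 u hu).imp (fun _ => g2 _ _), fun u hu => (r4 u hu).imp (fun _ => g2 _ _)⟩,
    fun u u' e hu => ?_⟩
  obtain ⟨w, hw⟩ := r3 u hu
  exact (hG.sys.inj (ok_self g1) (g2 _ _ hw) e).mp rfl ▸ hw

theorem Good.blk_symm (hg : S.Blk I p g a a') :
    ∃ k, S.Blk I p k a' a ∧ ∀ u' u, R E k u' u → S.B I a' u' → R E g u u' ∧ S.B I a u := by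
  obtain ⟨g1, g2, g3, g4, g5⟩ := hg
  obtain ⟨k, k1, k2⟩ := hG.blk_of_ok (hG.sys.symm (ok_self g1)) g2 g3 g5 g4
  exact ⟨k, k1, fun u' u e hu => ⟨k2 u' u e hu,
    hG.B_map (hG.sys.symm (ok_self g1)) g3 (k2 u' u e hu) hu⟩⟩

theorem Good.blk_trans (hg : S.Blk I p g a b) (hh : S.Blk I p h b c) : ∃ k, S.Blk I p k a c ∧
    ∀ u w, R E k u w → S.B I a u → ∃ v, R E g u v ∧ S.B I b v ∧ R E h v w := by
  obtain ⟨g1, g2, g3, g4, g5⟩ := hg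
  obtain ⟨h1, h2, h3, h4, h5⟩ := hh
  obtain ⟨k, k1, k2⟩ := hG.blk_of_ok (p := p) (a := a) (a' := c)
    (hG.sys.comp (ok_self g1) (ok_self h1))
    (fun z e1 e2 => ⟨z, g2 z e1 e2, h2 z e1 e2⟩) ⟨b, g3, h3⟩
    (fun u hu => by
      obtain ⟨v, hv⟩ := g4 u hu
      exact (h4 v (hG.B_map (ok_self g1) g3 hv hu)).imp (fun w hw => ⟨v, hv, hw⟩))
    (fun w hw => by
      obtain ⟨v, hv⟩ := h5 w hw
      exact (g5 v (hG.B_map (hG.sys.symm (ok_self h1)) h3 hv hw)).imp (fun u hu => ⟨v, hu, hv⟩))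
  refine ⟨k, k1, fun u w e hu => ?_⟩
  obtain ⟨v, e1, e2⟩ := k2 u w e hu
  exact ⟨v, e1, hG.B_map (ok_self g1) g3 e1 hu, e2⟩

theorem Good.step (hT : S.Triv I) (hp : KF E p) (hs : ∀ a, E a S.A → S.Stat I p a) {y : M}
    (hy : E y S.X) (n1 : ¬ S.cl I (fun x => E x p) a) (n2 : ¬ S.cl I (fun x => E x p) a')
    (hg : S.Blk I p g a a') (H : ∀ u u', R E g u u' → S.B I a u → S.col y u = S.col y u')
    (e : R E g u u') (hu : S.B I a u) : S.col (S.F y) u = S.col (S.F y) u' := by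
  obtain ⟨γ, hγ⟩ := S.hA.generic S.hC.finP (r := fun γ a => S.col y a = γ)
    (fun a ha => ⟨_, S.col_mem y a hy ha, rfl⟩)
  have g0 := ok_self hg.1
  have ha := (hG.sys.mem g0 hg.2.2.1).1
  have ha' := (hG.sys.mem g0 hg.2.2.1).2
  have fQ : FinP E (fun x => (E x S.A ∧ ¬ S.col y x = γ) ∧ ¬ S.B I a x ∧ ¬ S.B I a' x) :=
    hγ.mono (fun _ m => m.1)
  have r0 := hG.sys.id (hp.finP.or fQ)
  have r1 := hG.glue (hs a ha) fQ r0 (fun z e1 e2 => ⟨e1, Or.inl e2, rfl⟩)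
    (fun x y m => ⟨m.2.1, m.2.2 ▸ m.2.1⟩) (hG.indep hT hp fQ n1 (fun q m => m.2.1))
    (hG.indep hT hp fQ n2 (fun q m => m.2.2)) hg
  have fin : ∀ r, Ok E I r → (∀ u u', r u u' → S.col y u = S.col y u') → r u u' →
      (∀ z, E z S.A → ¬ S.col y z = γ → (∃ w, r z w) ∧ ∃ w, r w z) →
      S.col (S.F y) u = S.col (S.F y) u' := fun r m1 m2 m3 m4 =>
    hG.sys.compat m1 hy hy ⟨m2, fun x z hx hz e1 e2 =>
      (by_contra (fun m => e1 (m4 x hx m).1) : S.col y x = γ).trans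
      (by_contra (fun m => e2 (m4 z hz m).2) : S.col y z = γ).symm⟩ m3
  by_cases hb : S.B I a a'
  · have hb' := hG.B_symm ha (fun m => n2 (m.mono (fun _ _ => False.elim))) hb
    have k1 : ∀ z, S.B I a z ↔ S.B I a' z := fun z =>
      ⟨fun m => hG.cl_trans (finP_eq _) m (fun x _ e => e ▸ hb'),
        fun m => hG.cl_trans (finP_eq _) m (fun x _ e => e ▸ hb)⟩
    refine fin _ r1 ?_ (Or.inr ⟨hu, e⟩) (fun z hz m => ?_)
    · rintro x x' (⟨-, -, rfl⟩ | ⟨e1, e2⟩)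
      · rfl
      · exact H x x' e2 e1
    · by_cases m' : S.B I a z
      · obtain ⟨w, hw⟩ := hg.2.2.2.1 z m'
        obtain ⟨w', hw'⟩ := hg.2.2.2.2 z ((k1 z).mp m')
        exact ⟨⟨w, Or.inr ⟨m', hw⟩⟩, w', Or.inr
          ⟨hG.B_map (hG.sys.symm g0) hg.2.2.1 hw' ((k1 z).mp m'), hw'⟩⟩
      · have : E z S.A ∧ (E z p ∨ (E z S.A ∧ ¬ S.col y z = γ) ∧ ¬ S.B I a z ∧ ¬ S.B I a' z) ∧
          z = z := ⟨hz, Or.inr ⟨⟨hz, m⟩, m', fun e => m' ((k1 z).mpr e)⟩, rfl⟩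
        exact ⟨⟨z, Or.inl this⟩, z, Or.inl this⟩
  have hb' : ¬ S.B I a' a := fun m => hb (hG.B_symm ha'
    (fun m => n1 (m.mono (fun _ _ => False.elim))) m)
  have ind : ∀ a a', E a' S.A → ¬ S.cl I (fun x => E x p) a → ¬ S.B I a a' →
      ∀ (Q : M → Prop) [Dfn E (fun v => Q (v 0))], FinP E Q → (∀ q, Q q → ¬ S.B I a q) →
      ¬ S.cl I (fun x => E x p ∨ (Q x ∨ S.B I a' x)) a := by
    intro a a' ha' n hb Q hQ fQ H m
    have := hQ.one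
    refine hG.indep hT hp (fQ.or (finP_eq a')) n (fun q m => m.elim (H q) (fun e => e ▸ hb))
      (hG.cl_trans (hp.finP.or (fQ.or (finP_eq a'))) m ?_)
    rintro x hx (e | e | e)
    · exact hG.cl_self hx (Or.inl e)
    · exact hG.cl_self hx (Or.inr (Or.inl e))
    · exact cl.mono e (fun _ _ e => Or.inr (Or.inr e))
  obtain ⟨k, k1, k2⟩ := hG.blk_symm hg
  have r2 := hG.glue (hs a' ha') (fQ.or (hG.B_fin a)) r1
    (fun z e1 e2 => Or.inl ⟨e1, Or.inl e2, rfl⟩) (by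
      rintro x x' (⟨-, e1 | e1, rfl⟩ | ⟨e1, e2⟩)
      · exact ⟨Or.inl e1, Or.inl e1⟩
      · exact ⟨Or.inr (Or.inl e1), Or.inr (Or.inl e1)⟩
      · exact ⟨Or.inr (Or.inr e1), Or.inr (Or.inr (hG.B_map g0 hg.2.2.1 e2 e1))⟩)
    (ind a' a ha n2 hb' _ fQ (fun q m => m.2.2)) (ind a a' ha' n1 hb _ fQ (fun q m => m.2.1)) k1
  refine fin _ r2 ?_ (Or.inl (Or.inr ⟨hu, e⟩)) (fun z hz m => ?_)
  · rintro x x' ((⟨-, -, rfl⟩ | ⟨e1, e2⟩) | ⟨e1, e2⟩)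
    · rfl
    · exact H x x' e2 e1
    · exact (H x' x (k2 x x' e2 e1).1 (k2 x x' e2 e1).2).symm
  · by_cases m1 : S.B I a z
    · obtain ⟨w, hw⟩ := hg.2.2.2.1 z m1
      obtain ⟨w', hw'⟩ := k1.2.2.2.2 z m1
      exact ⟨⟨w, Or.inl (Or.inr ⟨m1, hw⟩)⟩, w', Or.inr
        ⟨hG.B_map (hG.sys.symm (ok_self k1.1)) k1.2.2.1 hw' m1, hw'⟩⟩
    by_cases m2 : S.B I a' z
    · obtain ⟨w, hw⟩ := k1.2.2.2.1 z m2
      obtain ⟨w', hw'⟩ := hg.2.2.2.2 z m2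
      exact ⟨⟨w, Or.inr ⟨m2, hw⟩⟩, w', Or.inl (Or.inr
        ⟨hG.B_map (hG.sys.symm g0) hg.2.2.1 hw' m2, hw'⟩)⟩
    · have : E z S.A ∧ (E z p ∨ (E z S.A ∧ ¬ S.col y z = γ) ∧ ¬ S.B I a z ∧ ¬ S.B I a' z) ∧
        z = z := ⟨hz, Or.inr ⟨⟨hz, m⟩, m1, m2⟩, rfl⟩
      exact ⟨⟨z, Or.inl (Or.inl this)⟩, z, Or.inl (Or.inl this)⟩

theorem Good.trivial (hT : S.Triv I) (surj : ∀ y, E y S.X → ∃ z, E z S.X ∧ S.F z = y)
    (hu : E u S.X) (hu' : E u' S.X) (e : S.F u = S.F u') : u = u' := by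
  obtain ⟨a0, ha0, n0⟩ := S.hA.exists_not (hG.cl_fin finP_false)
  obtain ⟨p, hp, n1, hs⟩ := hG.exists_stat n0
  obtain ⟨B0, b1, b2⟩ := (hG.B_fin a0).set
  refine count (N := fun a => E a S.A ∧ ¬ S.cl I (fun x => E x p) a)
    ((hG.cl_fin hp.finP).mono (fun a m => by_contra (fun m' => m.2 ⟨m.1, m'⟩)))
    (Q := fun x a a' => ∃ g, S.Blk I p g a a' ∧
      ∀ u u', R E g u u' → S.B I a u → S.col x u = S.col x u') ?_ ?_
    (fun x a b ha ⟨g, g1, g2⟩ => g2 a b g1.2.2.1 (hG.cl_self ha.1 rfl))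
    (fun y a b hy ha hb ⟨g, g1, g2⟩ => ⟨g, g1, fun u u' => hG.step hT hp
      (fun a => hG.stat_move hp ha0 n1 hs) hy ha.2 hb.2 g1 g2⟩)
    (b1.prod S.hC).pow.pow
    (τ := fun x a => sp E (pow E (prod E B0 S.C)) (fun κ => ∃ g, S.Blk I p g a0 a ∧
      ∀ u u' c, R E g u u' → S.B I a0 u → E c S.C → (R E κ u c ↔ c = S.col x u')))
    (fun x a => mem_pow.mpr (fun y hy => (mem_sp.mp hy).1)) ?_ surj hu hu' e
  · rintro x a b ⟨g, g1, g2⟩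
    obtain ⟨k, k1, k2⟩ := hG.blk_symm g1
    exact ⟨k, k1, fun u' u e hu => (g2 u u' (k2 u' u e hu).1 (k2 u' u e hu).2).symm⟩
  · rintro x a b c ⟨g, g1, g2⟩ ⟨h, h1, h2⟩
    obtain ⟨k, k1, k2⟩ := hG.blk_trans g1 h1
    refine ⟨k, k1, fun u w e hu => ?_⟩
    obtain ⟨v, e1, e2, e3⟩ := k2 u w e hu
    exact (g2 u v e1 hu).trans (h2 v w e3 e2)
  intro x a b hx ha hb e
  obtain ⟨g, g1, g2, g3, g4⟩ := hG.extend (hG.ncl_ok hp.finP ha0 ha.1 n1 ha.2) (hG.B_fin a0)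
    (hG.B_fin a)
  have g5 : S.Blk I p g a0 a := ⟨g1, fun z e1 e2 => g2 _ _ (Or.inl ⟨e1, e2, rfl⟩),
    g2 _ _ (Or.inr ⟨rfl, rfl⟩), fun u hu => g3 u hu.1 hu, fun u hu => g4 u hu.1 hu⟩
  have g6 : ∀ u u' c, R E g u u' → S.B I a0 u → E c S.C →
      (R E (rel E B0 S.C (fun u c => ∃ u', R E g u u' ∧ c = S.col x u')) u c ↔ c = S.col x u') :=
    fun u u' c e1 e2 e3 => op_mem_rel.trans ⟨fun ⟨_, _, w, m1, m2⟩ =>
      (hG.sys.inj (ok_self g1) m1 e1).mp rfl ▸ m2, fun m => ⟨(b2 u).mpr e2, e3, u', e1, m⟩⟩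
  obtain ⟨-, h, h1, h2⟩ := mem_sp.mp (e ▸ mem_sp.mpr ⟨rel_mem_pow, g, g5, g6⟩ :
    E (rel E B0 S.C (fun u c => ∃ u', R E g u u' ∧ c = S.col x u'))
    (sp E (pow E (prod E B0 S.C)) (fun κ => ∃ g, S.Blk I p g a0 b ∧
      ∀ u u' c, R E g u u' → S.B I a0 u → E c S.C → (R E κ u c ↔ c = S.col x u'))))
  obtain ⟨k, k1, k2⟩ := hG.blk_symm g5
  obtain ⟨l, l1, l2⟩ := hG.blk_trans k1 h1
  refine ⟨l, l1, fun u w e hu => ?_⟩
  obtain ⟨v, e1, e2, e3⟩ := l2 u w e hu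
  have := S.col_mem x u hx hu.1
  exact (h2 v w _ e3 e2 this).mp ((g6 v u _ (k2 u v e1 hu).1 e2 this).mpr rfl)

omit hG in
/-- If `F` is surjective and not injective, then so is some definable map on the power set. -/
theorem dichotomy (surj : ∀ y, E y S.X → ∃ z, E z S.X ∧ S.F z = y)
    (hu : E u S.X) (hu' : E u' S.X) (e : S.F u = S.F u') (ne : u ≠ u') :
    ∃ Φ : M → M, Tm E (fun v => Φ (v 0)) ∧ (∀ s, E (Φ s) (pow E S.A)) ∧
      (∀ t, E t (pow E S.A) → ∃ s, E s (pow E S.A) ∧ Φ s = t) ∧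
      ∃ s s', E s (pow E S.A) ∧ E s' (pow E S.A) ∧ s ≠ s' ∧ Φ s = Φ s' := by
  obtain ⟨I, hG⟩ := exists_good (S := S)
  by_contra hcon
  refine ne (hG.trivial (fun p a b c hp ha hb h => by_contra (fun m => hcon ?_)) surj hu hu' e)
  exact hG.nontrivial hp ha hb h (fun m' => m (Or.inl m')) (fun m' => m (Or.inr m'))

end Setup

end Pool.Agent.P.MP_92320c_lc
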