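import Mathlib
import Pool.Agent.P.MP_92320c_lc.Triv

/-! From the abstract dichotomy to powers of the power set. -/

namespace Pool.Agent.P.MP_92320c_lc

universe u

variable {M : Type u} {E : M → M → Prop} [hZ : ZF E]

theorem exists_powPow (A n : M) : ∃ Y, IsPowPow E A n Y ∧ ∀ x, E x Y ↔ IsFun E x n (pow E A) := by
  have : ∀ x, E x (sp E (pow E (prod E n (pow E A))) (fun x => (∀ a, E a n → ∃ b, R E x a b) ∧
      ∀ a b b', R E x a b → R E x a b' → b = b')) ↔ IsFun E x n (pow E A) :=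
    fun x => mem_sp.trans isFun_iff.symm
  exact ⟨_, ⟨pow E A, fun _ => mem_pow, this⟩, this⟩

theorem exists_map {A N Y : M} (hA : Am E A) (hN : KF E N)
    (hY : ∀ x, E x Y ↔ IsFun E x N (pow E A)) (h : ¬ DuallyFinite E Y) :
    ∃ Φ : M → M, Tm E (fun v => Φ (v 0)) ∧ (∀ s, E (Φ s) (pow E A)) ∧
      (∀ t, E t (pow E A) → ∃ s, E s (pow E A) ∧ Φ s = t) ∧
      ∃ s s', E s (pow E A) ∧ E s' (pow E A) ∧ s ≠ s' ∧ Φ s = Φ s' := by
  simp only [DuallyFinite, Onto, Injective, rel_iff, isFun_iff, not_forall] at h hY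
  obtain ⟨f, ⟨f1, f2, f3⟩, f4, u, u', w, e1, e2, ne⟩ := h
  have val : ∀ x y, R E f x y → sp E (prod E N (pow E A)) (fun z => ∃ y, R E f x y ∧ E z y) = y :=
    fun x y e => ext (E := E) (fun z => mem_sp.trans ⟨fun ⟨_, y', m1, m2⟩ => f3 _ _ _ m1 e ▸ m2,
      fun m => ⟨mem_pow.mp ((hY y).mp (mem_of_R f1 e).2).1 z m, y, e, m⟩⟩)
  have colv : ∀ x i s a, E x Y → R E x i s →
      (E i (sp E N (fun i => ∃ s, R E x i s ∧ E a s)) ↔ E a s) := fun x i s a hx e =>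
    mem_sp.trans ⟨fun ⟨_, s', m1, m2⟩ => ((hY x).mp hx).2.2 _ _ _ m1 e ▸ m2,
      fun m => ⟨(mem_of_R ((hY x).mp hx).1 e).1, s, e, m⟩⟩
  let S : Setup E :=
    { A := A
      C := pow E N
      X := Y
      col := fun x a => sp E N (fun i => ∃ s, R E x i s ∧ E a s)
      F := fun x => sp E (prod E N (pow E A)) (fun z => ∃ y, R E f x y ∧ E z y)
      hA := hA
      hC := hN.pow
      tcol := inferInstance
      tF := inferInstance
      col_mem := fun x a _ _ => mem_pow.mpr (fun y hy => (mem_sp.mp hy).1)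
      cext := fun x y hx hy H => by
        obtain ⟨x1, x2, x3⟩ := (hY x).mp hx
        obtain ⟨y1, y2, y3⟩ := (hY y).mp hy
        refine ext_rel x1 y1 (fun i s hi _ => ?_)
        obtain ⟨s1, m1⟩ := x2 i hi
        obtain ⟨s2, m2⟩ := y2 i hi
        have : s1 = s2 := ext (E := E) (fun a => ⟨fun m => (colv y i s2 a hy m2).mp
          (H a (mem_pow.mp (mem_of_R x1 m1).2 a m) ▸ (colv x i s1 a hx m1).mpr m),
          fun m => (colv x i s1 a hx m1).mp
          (H a (mem_pow.mp (mem_of_R y1 m2).2 a m) ▸ (colv y i s2 a hy m2).mpr m)⟩)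
        subst this
        exact ⟨fun m => x3 _ _ _ m1 m ▸ m2, fun m => y3 _ _ _ m2 m ▸ m1⟩
      full := fun r hr r1 r2 => by
        have := hr.two
        have k1 : ∀ i, E i N → R E (rel E N (pow E A)
            (fun i s => s = sp E A (fun a => ∃ c, r a c ∧ E i c))) i
            (sp E A (fun a => ∃ c, r a c ∧ E i c)) := fun i hi =>
          op_mem_rel.mpr ⟨hi, mem_pow.mpr (fun y hy => (mem_sp.mp hy).1), rfl⟩
        have k2 : E (rel E N (pow E A) (fun i s => s = sp E A (fun a => ∃ c, r a c ∧ E i c))) Y :=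
          (hY _).mpr ⟨rel_mem_pow, fun i hi => ⟨_, k1 i hi⟩, fun i s s' m m' =>
            (op_mem_rel.mp m).2.2.trans (op_mem_rel.mp m').2.2.symm⟩
        refine ⟨_, k2, fun a ha => ?_⟩
        obtain ⟨c, c1, c2⟩ := r1 a ha
        have : c = sp E N (fun i => ∃ s, R E (rel E N (pow E A)
            (fun i s => s = sp E A (fun a => ∃ c, r a c ∧ E i c))) i s ∧ E a s) :=
          ext (E := E) (fun i => ⟨fun m => (colv _ i _ a k2 (k1 i (mem_pow.mp c1 i m))).mpr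
            (mem_sp.mpr ⟨ha, c, c2, m⟩), fun m => by
              obtain ⟨-, c', m1, m2⟩ := mem_sp.mp ((colv _ i _ a k2 (k1 i (mem_sp.mp m).1)).mp m)
              exact r2 a c' c m1 c2 ▸ m2⟩)
        exact this ▸ c2
      F_mem := fun x hx => by
        obtain ⟨y, e⟩ := f2 x hx
        rw [val x y e]
        exact (mem_of_R f1 e).2 }
  exact S.dichotomy (fun y hy => by
      obtain ⟨x, e⟩ := f4 y hy
      exact ⟨x, (mem_of_R f1 e).1, val x y e⟩) (mem_of_R f1 e1).1 (mem_of_R f1 e2).1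
    ((val u w e1).trans (val u' w e2).symm) ne

theorem dually_finite_pow {A N Y Z : M} (hA : Am E A) (hN : KF E N)
    (hZ1 : ∀ x, E x Z ↔ IsFun E x N (pow E A))
    (hY : ∀ x, E x Y ↔ IsFun E x (succ E (emp E)) (pow E A)) (h : DuallyFinite E Y) :
    DuallyFinite E Z := by
  by_contra hcon
  obtain ⟨Φ, hΦ, h1, h2, s, s', h3, h4, h5, h6⟩ := exists_map hA hN hZ1 hcon
  have := hΦ.one
  have one : ∀ i, E i (succ E (emp E)) ↔ i = emp E := fun i =>
    mem_succ.trans (or_iff_left (not_mem_emp i))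
  have k0 : ∀ s p, E p (ins E (op E (emp E) s) (emp E)) ↔ p = op E (emp E) s := fun s p =>
    mem_ins.trans (or_iff_left (not_mem_emp p))
  have k1 : ∀ s, E s (pow E A) → E (ins E (op E (emp E) s) (emp E)) Y := fun s hs =>
    (hY _).mpr (isFun_iff.mpr ⟨mem_pow.mpr (fun p hp => (k0 s p).mp hp ▸
      op_mem_prod.mpr ⟨(one _).mpr rfl, hs⟩), fun i hi => ⟨s, (one i).mp hi ▸ (k0 s _).mpr rfl⟩,
      fun _ _ _ e e' => (op_inj ((k0 s _).mp e)).2.trans (op_inj ((k0 s _).mp e')).2.symm⟩)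
  have k2 : ∀ x, E x Y → ∃ s, E s (pow E A) ∧ x = ins E (op E (emp E) s) (emp E) := by
    intro x hx
    obtain ⟨x1, x2, x3⟩ := isFun_iff.mp ((hY x).mp hx)
    obtain ⟨s, hs⟩ := x2 _ ((one _).mpr rfl)
    refine ⟨s, (mem_of_R x1 hs).2, ext (E := E) (fun p => Iff.trans ⟨fun hp => ?_,
      fun e : p = op E (emp E) s => e ▸ hs⟩ (k0 s p).symm)⟩
    obtain ⟨i, t, hi, -, rfl⟩ := mem_prod.mp (mem_pow.mp x1 p hp)
    obtain rfl := (one i).mp hi
    rw [x3 _ _ _ hp hs]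
  have k3 : ∀ s t, ins E (op E (emp E) s) (emp E) = ins E (op E (emp E) t) (emp E) → s = t :=
    fun s t e => (op_inj ((k0 t _).mp (e ▸ (k0 s _).mpr rfl))).2
  have k4 : ∀ s, E s (pow E A) → R E (rel E Y Y (fun x y => ∃ s, x = ins E (op E (emp E) s) (emp E) ∧
      y = ins E (op E (emp E) (Φ s)) (emp E))) (ins E (op E (emp E) s) (emp E))
      (ins E (op E (emp E) (Φ s)) (emp E)) := fun s hs =>
    op_mem_rel.mpr ⟨k1 s hs, k1 _ (h1 s), s, rfl, rfl⟩
  refine h5 (k3 _ _ (h _ (isFun_iff.mpr ⟨rel_mem_pow, fun x hx => ?_, fun x y y' e e' => ?_⟩)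
    (fun y hy => ?_) _ _ _ (rel_iff.mpr (k4 s h3)) (rel_iff.mpr (h6 ▸ k4 s' h4))))
  · obtain ⟨t, ht, rfl⟩ := k2 x hx
    exact ⟨_, k4 t ht⟩
  · obtain ⟨-, -, t, rfl, rfl⟩ := op_mem_rel.mp e
    obtain ⟨-, -, t', m, rfl⟩ := op_mem_rel.mp e'
    rw [k3 _ _ m]
  · obtain ⟨t, ht, rfl⟩ := k2 y hy
    obtain ⟨t', ht', rfl⟩ := h2 t ht
    exact ⟨_, rel_iff.mpr (k4 t' ht')⟩

omit hZ in
theorem main (hE : IsZF E) (w F T : M) (hw : IsOmega E w) (hF : IsFun E F w T)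
    (hA : ∀ n A, Rel E F n A → Amorphous E A) :
    ∃ n s A Y Z, E n w ∧ IsSucc E n s ∧ Rel E F n A ∧ IsPowPow E A n Y ∧ IsPowPow E A s Z ∧
      (¬ DuallyFinite E Y ∨ DuallyFinite E Z) := by
  have : ZF E := ⟨hE⟩
  obtain rfl := isOmega_iff.mp hw
  have h1 : E (succ E (emp E)) (om E) := succ_mem_om emp_mem_om
  obtain ⟨A, h2⟩ := (hF.2 _ h1).exists
  obtain ⟨Y, y1, y2⟩ := exists_powPow (E := E) A (succ E (emp E))
  obtain ⟨Z, z1, z2⟩ := exists_powPow (E := E) A (succ E (succ E (emp E)))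
  exact ⟨_, _, A, Y, Z, h1, isSucc_iff.mpr rfl, h2, y1, z1, imp_iff_not_or.mp
    (dually_finite_pow (hA _ A h2).am ((kf_emp.ins _).ins _) z2 y2)⟩

end Pool.Agent.P.MP_92320c_lc
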